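import Pool.Agent.helper62.MS.SpecG

/-!
# MP_07c750, project MS: row CNV (the sheets of a long thin box)
-/

set_option autoImplicit false

open scoped MatrixGroups ContDiff Topology UpperHalfPlane ComplexConjugate
open UpperHalfPlane MeasureTheory Filter Set

namespace Pool.Agent.MS

open Pool.Agent.RS

theorem CNV_mul (g h : SL(2, ℝ)) (i j : Fin 2) : (g * h).1 i j = g.1 i 0 * h.1 0 j + g.1 i 1 * h.1 1 j := by
  show (g.1 * h.1) i j = _
  rw [Matrix.mul_apply, Fin.sum_univ_two]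

theorem CNV_inv (g : SL(2, ℝ)) : (g⁻¹).1 0 0 = g.1 1 1 ∧ (g⁻¹).1 0 1 = -g.1 0 1 ∧ (g⁻¹).1 1 0 = -g.1 1 0 ∧ (g⁻¹).1 1 1 = g.1 0 0 := by
  rw [Matrix.SpecialLinearGroup.SL2_inv_expl]
  refine ⟨rfl, rfl, rfl, rfl⟩

theorem CNV_pr {x y a b : ℝ} (hx : |x| ≤ a) (hy : |y| ≤ b) : |x * y| ≤ a * b := by
  rw [abs_mul]
  exact mul_le_mul hx hy (abs_nonneg _) ((abs_nonneg _).trans hx)

theorem CNV_nmul {δ δ' : ℝ} {A B : SL(2, ℝ)} (hA : bq δ δ δ A) (hB : bq δ' δ' δ' B) :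
    bq (δ + δ' + 2 * (δ * δ')) (δ + δ' + 2 * (δ * δ')) (δ + δ' + 2 * (δ * δ')) (A * B) := by
  obtain ⟨a1, a2, a3, a4⟩ := hA
  obtain ⟨b1, b2, b3, b4⟩ := hB
  refine ⟨?_, ?_, ?_, ?_⟩
  · rw [CNV_mul]
    have p1 := abs_le.1 (CNV_pr a1 b1)
    have p2 := abs_le.1 (CNV_pr a3 b4)
    have q1 := abs_le.1 a1
    have q2 := abs_le.1 b1
    rw [abs_le]
    constructor <;> nlinarith
  · rw [CNV_mul]
    have p1 := abs_le.1 (CNV_pr a4 b3)
    have p2 := abs_le.1 (CNV_pr a2 b2)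
    have q1 := abs_le.1 a2
    have q2 := abs_le.1 b2
    rw [abs_le]
    constructor <;> nlinarith
  · rw [CNV_mul]
    have p1 := abs_le.1 (CNV_pr a1 b3)
    have p2 := abs_le.1 (CNV_pr a3 b2)
    have q1 := abs_le.1 b3
    have q2 := abs_le.1 a3
    rw [abs_le]
    constructor <;> nlinarith
  · rw [CNV_mul]
    have p1 := abs_le.1 (CNV_pr a4 b1)
    have p2 := abs_le.1 (CNV_pr a2 b4)
    have q1 := abs_le.1 b4
    have q2 := abs_le.1 a4
    rw [abs_le]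
    constructor <;> nlinarith

theorem CNV_ninv {a b c : ℝ} {A : SL(2, ℝ)} (hA : bq a b c A) : bq a b c A⁻¹ := by
  obtain ⟨a1, a2, a3, a4⟩ := hA
  obtain ⟨e1, e2, e3, e4⟩ := CNV_inv A
  refine ⟨?_, ?_, ?_, ?_⟩
  · rw [e1]; exact a2
  · rw [e4]; exact a1
  · rw [e2, abs_neg]; exact a3
  · rw [e3, abs_neg]; exact a4

theorem CNV_mono {a b c a' b' c' : ℝ} {A : SL(2, ℝ)} (hA : bq a b c A) (h1 : a ≤ a') (h2 : b ≤ b') (h3 : c ≤ c') : bq a' b' c' A :=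
  ⟨hA.1.trans h1, hA.2.1.trans h1, hA.2.2.1.trans h2, hA.2.2.2.trans h3⟩

theorem CNV_conj {X : ℝ} (hX : 0 < X) (q : SL(2, ℝ)) :
    ((aM (Real.log X))⁻¹ * q * aM (Real.log X)).1 0 0 = q.1 0 0 ∧
    ((aM (Real.log X))⁻¹ * q * aM (Real.log X)).1 1 1 = q.1 1 1 ∧
    X * ((aM (Real.log X))⁻¹ * q * aM (Real.log X)).1 0 1 = q.1 0 1 ∧
    ((aM (Real.log X))⁻¹ * q * aM (Real.log X)).1 1 0 = X * q.1 1 0 := by
  obtain ⟨e1, e2, e3, e4⟩ := CNV_inv (aM (Real.log X))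
  have f1 : (aM (Real.log X)).1 0 0 = Real.exp (Real.log X / 2) := rfl
  have f2 : (aM (Real.log X)).1 0 1 = 0 := rfl
  have f3 : (aM (Real.log X)).1 1 0 = 0 := rfl
  have f4 : (aM (Real.log X)).1 1 1 = Real.exp (-(Real.log X / 2)) := rfl
  have g1 : Real.exp (Real.log X / 2) * Real.exp (-(Real.log X / 2)) = 1 := by
    rw [← Real.exp_add]; simp
  have g2 : Real.exp (Real.log X / 2) * Real.exp (Real.log X / 2) = X := by
    rw [← Real.exp_add, add_halves, Real.exp_log hX]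
  have g3 : X * (Real.exp (-(Real.log X / 2)) * Real.exp (-(Real.log X / 2))) = 1 := by
    linear_combination (-(Real.exp (-(Real.log X / 2)) * Real.exp (-(Real.log X / 2)))) * g2 +
      (Real.exp (Real.log X / 2) * Real.exp (-(Real.log X / 2)) + 1) * g1
  refine ⟨?_, ?_, ?_, ?_⟩
  · rw [CNV_mul, CNV_mul, CNV_mul, e1, e2, f1, f2, f3, f4]
    linear_combination (q.1 0 0) * g1
  · rw [CNV_mul, CNV_mul, CNV_mul, e3, e4, f1, f2, f3, f4]
    linear_combination (q.1 1 1) * g1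
  · rw [CNV_mul, CNV_mul, CNV_mul, e1, e2, f2, f4]
    linear_combination (q.1 0 1) * g3
  · rw [CNV_mul, CNV_mul, CNV_mul, e3, e4, f1, f3]
    linear_combination (q.1 1 0) * g2

theorem CNV_cbq {X a U : ℝ} (hX : 1 ≤ X) (hXU : X * U ≤ 1) (ha : 0 ≤ a) {q : SL(2, ℝ)} (hq : bq a (a * X) (a * U) q) :
    bq a a a ((aM (Real.log X))⁻¹ * q * aM (Real.log X)) := by
  have hX0 : 0 < X := by linarith
  obtain ⟨c1, c2, c3, c4⟩ := CNV_conj hX0 q
  obtain ⟨a1, a2, a3, a4⟩ := hq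
  refine ⟨?_, ?_, ?_, ?_⟩
  · rw [c1]; exact a1
  · rw [c2]; exact a2
  · rw [← c3, abs_mul, abs_of_pos hX0, mul_comm a X] at a3
    exact le_of_mul_le_mul_left a3 hX0
  · rw [c4, abs_mul, abs_of_pos hX0]
    calc X * |q.1 1 0| ≤ X * (a * U) := mul_le_mul_of_nonneg_left a4 hX0.le
      _ = a * (X * U) := by ring
      _ ≤ a * 1 := mul_le_mul_of_nonneg_left hXU ha
      _ = a := mul_one a

/-- the product of four matrices close to the identity -/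
theorem CNV_four {δ : ℝ} (h0 : 0 < δ) (h8 : δ ≤ 1 / 8) {A B C D : SL(2, ℝ)} (hA : bq δ δ δ A) (hB : bq δ δ δ B)
    (hC : bq δ δ δ C) (hD : bq δ δ δ D) : bq (9 * δ) (9 * δ) (9 * δ) (A * B⁻¹ * C * D⁻¹) := by
  have e1 : δ + δ + 2 * (δ * δ) ≤ 3 * δ := by nlinarith
  have h1 : bq (3 * δ) (3 * δ) (3 * δ) (A * B⁻¹) := CNV_mono (CNV_nmul hA (CNV_ninv hB)) e1 e1 e1
  have h2 : bq (3 * δ) (3 * δ) (3 * δ) (C * D⁻¹) := CNV_mono (CNV_nmul hC (CNV_ninv hD)) e1 e1 e1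
  have e2 : 3 * δ + 3 * δ + 2 * (3 * δ * (3 * δ)) ≤ 9 * δ := by nlinarith
  have h3 := CNV_mono (CNV_nmul h1 h2) e2 e2 e2
  have h4 : A * B⁻¹ * (C * D⁻¹) = A * B⁻¹ * C * D⁻¹ := by group
  rwa [h4] at h3

theorem CNV_nr {δ ε : ℝ} (h : δ < ε) {A : SL(2, ℝ)} (hA : bq δ δ δ A) : EN.nr ε A := by
  obtain ⟨a1, a2, a3, a4⟩ := hA
  intro i j
  fin_cases i <;> fin_cases j
  · show |A.1 0 0 - (1 : Matrix (Fin 2) (Fin 2) ℝ) 0 0| < ε
    rw [Matrix.one_apply_eq]; exact a1.trans_lt h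
  · show |A.1 0 1 - (1 : Matrix (Fin 2) (Fin 2) ℝ) 0 1| < ε
    rw [Matrix.one_apply_ne (by decide), sub_zero]; exact a3.trans_lt h
  · show |A.1 1 0 - (1 : Matrix (Fin 2) (Fin 2) ℝ) 1 0| < ε
    rw [Matrix.one_apply_ne (by decide), sub_zero]; exact a4.trans_lt h
  · show |A.1 1 1 - (1 : Matrix (Fin 2) (Fin 2) ℝ) 1 1| < ε
    rw [Matrix.one_apply_eq]; exact a2.trans_lt h

theorem CNV_closed (τ : ℝ) :
    IsClosed {h : SL(2, ℝ) | (∀ i j : Fin 2, |h.1 i j| ≤ 2) ∧ |h.1 1 0| ≤ τ} := by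
  have hc : ∀ i j : Fin 2, Continuous fun h : SL(2, ℝ) => |h.1 i j| := fun i j =>
    ((continuous_apply j).comp ((continuous_apply i).comp continuous_subtype_val)).abs
  have h1 : {h : SL(2, ℝ) | (∀ i j : Fin 2, |h.1 i j| ≤ 2) ∧ |h.1 1 0| ≤ τ} =
      (⋂ i : Fin 2, ⋂ j : Fin 2, {h : SL(2, ℝ) | |h.1 i j| ≤ 2}) ∩ {h : SL(2, ℝ) | |h.1 1 0| ≤ τ} := by
    ext h
    simp only [Set.mem_inter_iff, Set.mem_iInter, Set.mem_ofPred_eq]
  rw [h1]
  exact (isClosed_iInter fun i => isClosed_iInter fun j =>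
    isClosed_le (hc i j) continuous_const).inter (isClosed_le (hc 1 0) continuous_const)

theorem CNV_mu (hGLI : RS.GLI_stmt) (a : SL(2, ℝ)) (T : Set SL(2, ℝ)) (hT : MeasurableSet T) :
    mG {g | a * g ∈ T} = mG T := by
  have hm : Measurable (fun g : SL(2, ℝ) => a * g) := (continuous_const.mul continuous_id).measurable
  have h : Measure.map (fun g => a * g) mG = mG := hGLI a
  have h1 : mG T = (Measure.map (fun g => a * g) mG) T := by rw [h]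
  rw [h1, Measure.map_apply hm hT]
  rfl

theorem CNV_proof (hCVK : CVK_stmt) (hXDS : EN.XDS_stmt) (hXVO : EN.XVO_stmt) (hGLI : RS.GLI_stmt) : CNV_stmt := by
  intro Γ hΓ
  obtain ⟨ε, hε, hds⟩ := hXDS Γ hΓ
  obtain ⟨C1, hC1, hvol⟩ := hXVO
  obtain ⟨a0, ha0⟩ : ∃ a0, a0 = min (1 / 8) (ε / 10) := ⟨_, rfl⟩
  have ha0p : 0 < a0 := by rw [ha0]; exact lt_min (by norm_num) (by linarith)
  have ha08 : a0 ≤ 1 / 8 := by rw [ha0]; exact min_le_left _ _
  have ha0e : 9 * a0 < ε := by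
    have : a0 ≤ ε / 10 := by rw [ha0]; exact min_le_right _ _
    linarith
  refine ⟨a0, ha0p, ha08, fun R hR => ?_⟩
  obtain ⟨C0, hC0, hcov⟩ := hCVK R a0 hR ha0p (by linarith)
  refine ⟨C0 * C1, mul_pos hC0 hC1, ?_⟩
  intro a X U ρ y h ha haa hX hU hXU hρ
  have hX0 : 0 < X := by linarith
  obtain ⟨A, hA, hAc⟩ := hcov X ρ hX hρ
  obtain ⟨S, hS⟩ : ∃ S : Set SL(2, ℝ), S = {k : SL(2, ℝ) | (∀ i j, |k.1 i j| ≤ R) ∧ |k.1 1 0| ≤ ρ ∧
    ∃ γ : Γ, bq a (a * X) (a * U) (y⁻¹ * (γ : SL(2, ℝ)) * (h * k))} := ⟨_, rfl⟩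
  rw [← hS]
  -- one cell
  have hκX : a0 / X ≤ a0 := div_le_self ha0p.le hX
  have cell : ∀ u : SL(2, ℝ), mG (S ∩ {k | bq a0 a0 (a0 / X) (u⁻¹ * k)}) ≤ ENNReal.ofReal (C1 * U) := by
    intro u
    rcases (S ∩ {k | bq a0 a0 (a0 / X) (u⁻¹ * k)}).eq_empty_or_nonempty with he | ⟨k, hkS, hku⟩
    · rw [he, measure_empty]
      exact bot_le
    · rw [hS] at hkS
      obtain ⟨-, -, γ, hq⟩ := hkS
      have hsub : S ∩ {k | bq a0 a0 (a0 / X) (u⁻¹ * k)} ⊆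
          {k' | k⁻¹ * k' ∈ {h : SL(2, ℝ) | (∀ i j : Fin 2, |h.1 i j| ≤ 2) ∧ |h.1 1 0| ≤ 3 * a * U}} := by
        rintro k' ⟨hkS', hku'⟩
        rw [hS] at hkS'
        obtain ⟨-, -, γ', hq'⟩ := hkS'
        have hku2 : bq a0 a0 (a0 / X) (u⁻¹ * k) := hku
        have hku2' : bq a0 a0 (a0 / X) (u⁻¹ * k') := hku'
        -- conjugates
        have hP : ∀ P : SL(2, ℝ), bq a0 a0 (a0 / X) P → bq a0 a0 a0 ((aM (Real.log X))⁻¹ * P * aM (Real.log X)) := by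
          intro P hP
          have h1 : X * (1 / X) ≤ 1 := by rw [mul_one_div_cancel hX0.ne']
          refine CNV_cbq hX h1 ha0p.le (CNV_mono hP le_rfl ?_ ?_)
          · nlinarith
          · rw [mul_one_div]
        have hQ : ∀ q : SL(2, ℝ), bq a (a * X) (a * U) q → bq a0 a0 a0 ((aM (Real.log X))⁻¹ * q * aM (Real.log X)) :=
          fun q hq => CNV_mono (CNV_cbq hX hXU ha.le hq) haa haa haa
        have h4 := CNV_nr ha0e (CNV_four ha0p ha08 (hQ _ hq') (hP _ hku2') (hP _ hku2) (hQ _ hq))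
        have h5 : (aM (Real.log X))⁻¹ * (y⁻¹ * (γ' : SL(2, ℝ)) * (h * k')) * aM (Real.log X) *
            ((aM (Real.log X))⁻¹ * (u⁻¹ * k') * aM (Real.log X))⁻¹ *
            ((aM (Real.log X))⁻¹ * (u⁻¹ * k) * aM (Real.log X)) *
            ((aM (Real.log X))⁻¹ * (y⁻¹ * (γ : SL(2, ℝ)) * (h * k)) * aM (Real.log X))⁻¹ =
            (y * aM (Real.log X))⁻¹ * ((γ' * γ⁻¹ : Γ) : SL(2, ℝ)) * (y * aM (Real.log X)) := by
          have h6 : ((γ' * γ⁻¹ : Γ) : SL(2, ℝ)) = (γ' : SL(2, ℝ)) * (γ : SL(2, ℝ))⁻¹ := rfl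
          rw [h6]
          group
        rw [h5] at h4
        have h7 : γ' * γ⁻¹ = 1 := hds _ _ h4
        have h8 : γ' = γ := mul_inv_eq_one.1 h7
        subst h8
        show (∀ i j : Fin 2, |(k⁻¹ * k').1 i j| ≤ 2) ∧ |(k⁻¹ * k').1 1 0| ≤ 3 * a * U
        constructor
        · have e1 : a0 + a0 + 2 * (a0 * a0) ≤ 1 := by nlinarith
          have h9 := CNV_mono (CNV_nmul (CNV_ninv (CNV_mono hku2 le_rfl le_rfl hκX)) (CNV_mono hku2' le_rfl le_rfl hκX)) e1 e1 e1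
          have h10 : (u⁻¹ * k)⁻¹ * (u⁻¹ * k') = k⁻¹ * k' := by group
          rw [h10] at h9
          obtain ⟨b1, b2, b3, b4⟩ := h9
          intro i j
          fin_cases i <;> fin_cases j
          · show |(k⁻¹ * k').1 0 0| ≤ 2
            have := abs_le.1 b1
            rw [abs_le]
            constructor <;> linarith
          · show |(k⁻¹ * k').1 0 1| ≤ 2
            linarith
          · show |(k⁻¹ * k').1 1 0| ≤ 2
            linarith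
          · show |(k⁻¹ * k').1 1 1| ≤ 2
            have := abs_le.1 b2
            rw [abs_le]
            constructor <;> linarith
        · have h10 : (y⁻¹ * (γ' : SL(2, ℝ)) * (h * k))⁻¹ * (y⁻¹ * (γ' : SL(2, ℝ)) * (h * k')) = k⁻¹ * k' := by group
          obtain ⟨Q, hQd⟩ : ∃ Q, Q = y⁻¹ * (γ' : SL(2, ℝ)) * (h * k) := ⟨_, rfl⟩
          obtain ⟨Q', hQd'⟩ : ∃ Q', Q' = y⁻¹ * (γ' : SL(2, ℝ)) * (h * k') := ⟨_, rfl⟩
          rw [← hQd] at hq h10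
          rw [← hQd'] at hq' h10
          rw [← h10, CNV_mul]
          obtain ⟨i1, i2, i3, i4⟩ := CNV_inv Q
          rw [i3, i4]
          obtain ⟨q1, q2, q3, q4⟩ := hq
          obtain ⟨r1, r2, r3, r4⟩ := hq'
          have s1 : |Q.1 0 0| ≤ 1 + a := by
            have := abs_le.1 q1
            rw [abs_le]
            constructor <;> linarith
          have s2 : |Q'.1 0 0| ≤ 1 + a := by
            have := abs_le.1 r1
            rw [abs_le]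
            constructor <;> linarith
          have t1 : |-Q.1 1 0 * Q'.1 0 0| ≤ (a * U) * (1 + a) := by
            refine CNV_pr ?_ s2
            rw [abs_neg]; exact q4
          have t2 : |Q.1 0 0 * Q'.1 1 0| ≤ (1 + a) * (a * U) := CNV_pr s1 r4
          have t3 := abs_add_le (-Q.1 1 0 * Q'.1 0 0) (Q.1 0 0 * Q'.1 1 0)
          have haU : 0 < a * U := mul_pos ha hU
          nlinarith
      refine (measure_mono hsub).trans ?_
      rw [CNV_mu hGLI _ _ (CNV_closed _).measurableSet]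
      refine (hvol (3 * a * U) (by positivity)).trans (ENNReal.ofReal_le_ofReal ?_)
      have : 3 * a * U ≤ U := by nlinarith
      exact mul_le_mul_of_nonneg_left this hC1.le
  -- the sum over the cells
  have hcovS : S ⊆ ⋃ u ∈ A, (S ∩ {k | bq a0 a0 (a0 / X) (u⁻¹ * k)}) := by
    intro k hk
    have hk' := hk
    rw [hS] at hk'
    obtain ⟨u, hu, hb⟩ := hAc k hk'.1 hk'.2.1
    simp only [Set.mem_iUnion]
    exact ⟨u, hu, hk, hb⟩
  calc mG S ≤ mG (⋃ u ∈ A, (S ∩ {k | bq a0 a0 (a0 / X) (u⁻¹ * k)})) := measure_mono hcovS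
    _ ≤ ∑ u ∈ A, mG (S ∩ {k | bq a0 a0 (a0 / X) (u⁻¹ * k)}) := measure_biUnion_finset_le _ _
    _ ≤ ∑ _u ∈ A, ENNReal.ofReal (C1 * U) := Finset.sum_le_sum fun u _ => cell u
    _ = ENNReal.ofReal ((A.card : ℝ) * (C1 * U)) := by
      rw [Finset.sum_const, nsmul_eq_mul, ENNReal.ofReal_mul (Nat.cast_nonneg _), ENNReal.ofReal_natCast]
    _ ≤ ENNReal.ofReal (C0 * C1 * U * (1 + ρ * X)) := by
      refine ENNReal.ofReal_le_ofReal ?_
      calc (A.card : ℝ) * (C1 * U) ≤ C0 * (1 + ρ * X) * (C1 * U) :=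
            mul_le_mul_of_nonneg_right hA (mul_pos hC1 hU).le
        _ = C0 * C1 * U * (1 + ρ * X) := by ring

end Pool.Agent.MS
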