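import Pool.Agent.helper62.MS.SpecD

/-!
# MP_07c750, project MS: row EZ2 (the part of the measure over a small set is covered by few boxes)
-/

set_option autoImplicit false

open scoped MatrixGroups ContDiff Topology UpperHalfPlane ComplexConjugate
open UpperHalfPlane MeasureTheory Filter Set

namespace Pool.Agent.MS

open Pool.Agent.RS
open Pool.Agent.EN (XG MG mkX mkM fl pr)

theorem EZ2_meas (hXFL : EN.XFL_stmt) (Γ : Subgroup SL(2, ℝ)) (t : ℝ) : Measurable (fl Γ t) := by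
  have h := (hXFL Γ).1.cont
  exact (h.comp (Continuous.prodMk_right t)).measurable

theorem EZ2_sys (hXFL : EN.XFL_stmt) (Γ : Subgroup SL(2, ℝ)) (μ : Measure (XG Γ)) (hinv : ∀ t, μ.map (fl Γ t) = μ) :
    LL.Sys μ (fl Γ 1) (fl Γ (-1)) := by
  have hF := (hXFL Γ).1
  refine ⟨⟨EZ2_meas hXFL Γ 1, hinv 1⟩, ⟨EZ2_meas hXFL Γ (-1), hinv (-1)⟩, fun x => ?_, fun x => ?_⟩
  · rw [← hF.add, add_neg_cancel, hF.zero]
  · rw [← hF.add, neg_add_cancel, hF.zero]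

theorem EZ2_cylm {X : Type} [MeasurableSpace X] {T : X → X} (hT : Measurable T) {p : ℕ} {P : X → Fin p} (hP : Measurable P)
    (N : ℕ) (w : Fin N → Fin p) : MeasurableSet {x | ∀ i : Fin N, P (T^[i] x) = w i} := by
  have h1 : {x | ∀ i : Fin N, P (T^[i] x) = w i} = ⋂ i : Fin N, (fun x => P (T^[i] x)) ⁻¹' {w i} := by
    ext x
    simp only [Set.mem_iInter, Set.mem_preimage, Set.mem_singleton_iff, Set.mem_ofPred_eq]
  rw [h1]
  exact MeasurableSet.iInter fun i => (hP.comp (hT.iterate i)) (measurableSet_singleton _)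

open Classical in
/-- the words with heavy cylinders -/
theorem EZ2_heavy {X : Type} [MeasurableSpace X] (μ : Measure X) [IsProbabilityMeasure μ] {T : X → X} (hT : Measurable T) {p : ℕ}
    {P : X → Fin p} (hP : Measurable P) (N : ℕ) (b : ℝ) :
    ∃ W : Finset (Fin N → Fin p), (W.card : ℝ) ≤ Real.exp b ∧
      ∀ w, Real.exp (-b) ≤ μ.real {x | ∀ i : Fin N, P (T^[i] x) = w i} → w ∈ W := by
  refine ⟨Finset.univ.filter fun w => Real.exp (-b) ≤ μ.real {x | ∀ i : Fin N, P (T^[i] x) = w i}, ?_,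
    fun w hw => Finset.mem_filter.2 ⟨Finset.mem_univ _, hw⟩⟩
  obtain ⟨W, hW⟩ : ∃ W : Finset (Fin N → Fin p),
    W = Finset.univ.filter fun w => Real.exp (-b) ≤ μ.real {x | ∀ i : Fin N, P (T^[i] x) = w i} := ⟨_, rfl⟩
  rw [← hW]
  have h1 : ∑ w ∈ W, μ.real {x | ∀ i : Fin N, P (T^[i] x) = w i} ≤ 1 := by
    rw [← measureReal_biUnion_finset (μ := μ) (s := W) (f := fun w => {x | ∀ i : Fin N, P (T^[i] x) = w i})]
    · exact measureReal_le_one
    · intro w _ w' _ hne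
      refine Set.disjoint_left.2 ?_
      intro x hx hx'
      apply hne
      funext i
      have h2 : P (T^[i] x) = w i := hx i
      have h3 : P (T^[i] x) = w' i := hx' i
      rw [← h2, h3]
    · intro w _
      exact EZ2_cylm hT hP N w
  have h2 : (W.card : ℝ) * Real.exp (-b) ≤ ∑ w ∈ W, μ.real {x | ∀ i : Fin N, P (T^[i] x) = w i} := by
    rw [← nsmul_eq_mul]
    refine Finset.card_nsmul_le_sum _ _ _ fun w hw => ?_
    rw [hW] at hw
    exact (Finset.mem_filter.1 hw).2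
  have h3 : (W.card : ℝ) * Real.exp (-b) ≤ 1 := h2.trans h1
  have h4 : Real.exp (-b) * Real.exp b = 1 := by rw [← Real.exp_add]; simp
  calc (W.card : ℝ) = (W.card : ℝ) * Real.exp (-b) * Real.exp b := by rw [mul_assoc, h4, mul_one]
    _ ≤ 1 * Real.exp b := mul_le_mul_of_nonneg_right h3 (Real.exp_pos _).le
    _ = Real.exp b := one_mul _

theorem EZ2_proof (hLOC : LL.LOC_stmt) (hSML : SML_stmt) (hNC2 : NC2_stmt) (hCYB : CYB_stmt) (hPAR : EN.PAR_stmt)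
    (hXFL : EN.XFL_stmt) (hXTX : EN.XTX_stmt) (hXNB : EN.XNB_stmt) : EZ2_stmt := by
  intro Γ μ E α hΓ hμ hinv hE hα0 hα1 hSm a ha δ hδ
  classical
  obtain ⟨hX1, hX2, hX3⟩ := hXTX Γ hΓ
  obtain ⟨δ₁, hδ₁, hcyb⟩ := hCYB Γ a hΓ ha
  obtain ⟨p, P, hP, hcell, -⟩ := hPAR (XG Γ) μ (fun x => EN.Ux Γ δ₁ x) inferInstance (fun x => hXNB Γ δ₁ x hδ₁)
  have hcy := hcyb p P hP hcell
  have hsys := EZ2_sys hXFL Γ μ hinv
  -- parameters
  obtain ⟨κ, hκd⟩ : ∃ κ, κ = δ / 8 := ⟨_, rfl⟩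
  have hκ : 0 < κ := by rw [hκd]; linarith
  obtain ⟨ε, hε0, hε1, hε2, hε3⟩ : ∃ ε : ℝ, 0 < ε ∧ ε ≤ 1 / 8 ∧ 3 * ε ≤ δ / 8 ∧ 3 * ε / κ ≤ δ / 2 := by
    refine ⟨min (1 / 8) (min (δ / 24) (δ * κ / 6)), ?_, ?_, ?_, ?_⟩
    · exact lt_min (by norm_num) (lt_min (by linarith) (by positivity))
    · exact min_le_left _ _
    · have := (min_le_right (1 / 8) (min (δ / 24) (δ * κ / 6))).trans (min_le_left _ _)
      linarith
    · have := (min_le_right (1 / 8) (min (δ / 24) (δ * κ / 6))).trans (min_le_right _ _)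
      rw [div_le_iff₀ hκ]
      linarith
  obtain ⟨J, L, hJm, hJT, hJL, hJH, hcyl⟩ := hLOC (XG Γ) μ (fl Γ 1) (fl Γ (-1)) p P ε hμ hsys hP hε0
  have hz := hNC2 Γ μ p P J ε α E hΓ hμ hinv hP hJm hε0 hε1 hα0 hα1 hE hSm hcyl
  have hev := hSML (XG Γ) μ (fl Γ 1) (fl Γ (-1)) p P J L ε hμ hsys hP hJm hJL hε0 hJH hcyl κ hκ
  obtain ⟨k0, hk0⟩ := Filter.eventually_atTop.1 hev
  have hmY : μ.real (pr Γ ⁻¹' E) ≤ μ.real {x : XG Γ | J x ≤ α / 2 + 3 * ε} := by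
    have h6 : μ (pr Γ ⁻¹' E) ≤ μ {x : XG Γ | J x ≤ α / 2 + 3 * ε} := by
      calc μ (pr Γ ⁻¹' E) ≤ μ ({x : XG Γ | J x ≤ α / 2 + 3 * ε} ∪ ({x | α / 2 + 3 * ε < J x} ∩ pr Γ ⁻¹' E)) := by
            apply measure_mono
            intro x hx
            rcases le_or_gt (J x) (α / 2 + 3 * ε) with h | h
            · exact Or.inl h
            · exact Or.inr ⟨h, hx⟩
        _ ≤ μ {x : XG Γ | J x ≤ α / 2 + 3 * ε} + μ ({x | α / 2 + 3 * ε < J x} ∩ pr Γ ⁻¹' E) := measure_union_le _ _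
        _ = μ {x : XG Γ | J x ≤ α / 2 + 3 * ε} := by rw [hz, add_zero]
    exact ENNReal.toReal_mono (measure_ne_top _ _) h6
  refine ⟨max (2 * k0) (⌈1 / δ⌉₊ + 1), fun n hn => ?_⟩
  have hn1 : 2 * k0 ≤ n := (le_max_left _ _).trans hn
  have hn2 : ⌈1 / δ⌉₊ + 1 ≤ n := (le_max_right _ _).trans hn
  obtain ⟨k, hk⟩ : ∃ k, k = n / 2 := ⟨_, rfl⟩
  have hk1 : k0 ≤ k := by omega
  have hN1 : n ≤ 2 * k + 1 := by omega
  have hN2 : 2 * k + 1 ≤ n + 1 := by omega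
  have hN1' : (n : ℝ) ≤ ((2 * k + 1 : ℕ) : ℝ) := by exact_mod_cast hN1
  have hN2' : ((2 * k + 1 : ℕ) : ℝ) ≤ (n : ℝ) + 1 := by exact_mod_cast hN2
  have hnδ : 1 / δ + 1 ≤ (n : ℝ) := by
    have h1 : (((⌈1 / δ⌉₊ + 1 : ℕ)) : ℝ) ≤ (n : ℝ) := by exact_mod_cast hn2
    have h2 := Nat.le_ceil (1 / δ)
    push_cast at h1
    linarith
  -- the heavy words
  obtain ⟨W, hWc, hWm⟩ := EZ2_heavy μ hsys.mp.measurable hP (2 * k + 1) (((2 * k + 1 : ℕ) : ℝ) * (α / 2 + δ / 4))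
  choose c hc using fun w : Fin (2 * k + 1) → Fin p => hcy (2 * k + 1) w (by omega)
  refine ⟨W.image c, ?_, ?_⟩
  · have h1 : ((W.image c).card : ℝ) ≤ (W.card : ℝ) := by exact_mod_cast Finset.card_image_le
    refine h1.trans (hWc.trans (Real.exp_le_exp.2 ?_))
    have h2 : ((2 * k + 1 : ℕ) : ℝ) * (α / 2 + δ / 4) ≤ ((n : ℝ) + 1) * (α / 2 + δ / 4) :=
      mul_le_mul_of_nonneg_right hN2' (by linarith)
    have h3 : 1 + δ ≤ δ * n := by
      have h4 := mul_le_mul_of_nonneg_left hnδ hδ.le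
      have h5 : δ * (1 / δ + 1) = 1 + δ := by field_simp
      linarith
    nlinarith
  · have hbad := hk0 k hk1
    have hbadr : μ.real {x | LL.cyl μ (fl Γ 1) P (2 * k + 1) ((fl Γ (-1))^[k] x) <
        Real.exp (-(((2 * k + 1 : ℕ) : ℝ) * (J x + κ)))} ≤ δ / 2 :=
      (ENNReal.toReal_le_of_le_ofReal (by positivity) hbad).trans hε3
    have hZm : MeasurableSet (⋃ w ∈ W, {x | ∀ i : Fin (2 * k + 1), P ((fl Γ 1)^[i] x) = w i}) :=
      Finset.measurableSet_biUnion _ fun w _ => EZ2_cylm hsys.mp.measurable hP _ w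
    have hsub : {x : XG Γ | J x ≤ α / 2 + 3 * ε} ⊆
        ((fl Γ (-1))^[k] ⁻¹' (⋃ w ∈ W, {x | ∀ i : Fin (2 * k + 1), P ((fl Γ 1)^[i] x) = w i})) ∪
        {x | LL.cyl μ (fl Γ 1) P (2 * k + 1) ((fl Γ (-1))^[k] x) < Real.exp (-(((2 * k + 1 : ℕ) : ℝ) * (J x + κ)))} := by
      intro x hx
      have hx' : J x ≤ α / 2 + 3 * ε := hx
      by_cases hb : LL.cyl μ (fl Γ 1) P (2 * k + 1) ((fl Γ (-1))^[k] x) < Real.exp (-(((2 * k + 1 : ℕ) : ℝ) * (J x + κ)))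
      · exact Or.inr hb
      · refine Or.inl ?_
        rw [not_lt] at hb
        have h1 : Real.exp (-(((2 * k + 1 : ℕ) : ℝ) * (α / 2 + δ / 4))) ≤
            LL.cyl μ (fl Γ 1) P (2 * k + 1) ((fl Γ (-1))^[k] x) := by
          refine le_trans (Real.exp_le_exp.2 ?_) hb
          rw [neg_le_neg_iff]
          refine mul_le_mul_of_nonneg_left ?_ (Nat.cast_nonneg _)
          rw [hκd]
          linarith
        have h2 := hWm (fun i => P ((fl Γ 1)^[i] ((fl Γ (-1))^[k] x))) h1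
        show (fl Γ (-1))^[k] x ∈ ⋃ w ∈ W, {x | ∀ i : Fin (2 * k + 1), P ((fl Γ 1)^[i] x) = w i}
        simp only [Set.mem_iUnion]
        exact ⟨_, h2, fun i => rfl⟩
    have h1 : μ.real {x : XG Γ | J x ≤ α / 2 + 3 * ε} ≤
        μ.real (⋃ w ∈ W, {x | ∀ i : Fin (2 * k + 1), P ((fl Γ 1)^[i] x) = w i}) + δ / 2 := by
      refine (measureReal_mono hsub).trans ((measureReal_union_le _ _).trans ?_)
      have h2 : μ.real ((fl Γ (-1))^[k] ⁻¹' (⋃ w ∈ W, {x | ∀ i : Fin (2 * k + 1), P ((fl Γ 1)^[i] x) = w i})) =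
          μ.real (⋃ w ∈ W, {x | ∀ i : Fin (2 * k + 1), P ((fl Γ 1)^[i] x) = w i}) := by
        unfold Measure.real
        rw [(hsys.ms.iterate k).measure_preimage hZm.nullMeasurableSet]
      rw [h2]
      linarith
    have h3 : μ.real (⋃ w ∈ W, {x | ∀ i : Fin (2 * k + 1), P ((fl Γ 1)^[i] x) = w i}) ≤
        μ.real {x | ∃ y ∈ W.image c, ∃ h : SL(2, ℝ), bq a a (a * Real.exp (-n)) h ∧ x = mkX Γ (y * h)} := by
      refine measureReal_mono ?_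
      intro x hx
      simp only [Set.mem_iUnion] at hx
      obtain ⟨w, hw, hxw⟩ := hx
      obtain ⟨h, hb, hxh⟩ := hc w hxw
      refine ⟨c w, Finset.mem_image_of_mem _ hw, h, ?_, hxh⟩
      refine ⟨hb.1, hb.2.1, hb.2.2.1, hb.2.2.2.trans ?_⟩
      refine mul_le_mul_of_nonneg_left (Real.exp_le_exp.2 ?_) ha.le
      linarith
    linarith

end Pool.Agent.MS
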