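import Pool.Agent.helper30.MS.D

open Bundle Manifold MeasureTheory Set Filter Topology
open scoped ContDiff ENNReal

namespace Pool.Agent.helper43.MS

section Ba
variable {m n : ℕ} {M : Type*} [TopologicalSpace M] [T2Space M] [SecondCountableTopology M]
  [ChartedSpace (E m) M] [IsManifold 𝓘(ℝ, E m) ∞ M] [MeasurableSpace M] [BorelSpace M]
  {N : Type*} [TopologicalSpace N] [ChartedSpace (E n) N] [IsManifold 𝓘(ℝ, E n) ∞ N]
  [RiemannianBundle (fun q : N => TangentSpace 𝓘(ℝ, E n) q)]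
  [IsContMDiffRiemannianBundle 𝓘(ℝ, E n) ∞ (E n) (fun q : N => TangentSpace 𝓘(ℝ, E n) q)]

omit [MeasurableSpace M] [BorelSpace M] [T2Space M] [SecondCountableTopology M] in
/-- the inner product of the gradients of two `C¹` functions is continuous -/
theorem H30_continuous_gradInner {φ : M → N} (h : IsImm m n φ) {u v : M → ℝ}
    (hu : ContMDiff 𝓘(ℝ, E m) 𝓘(ℝ, ℝ) 1 u) (hv : ContMDiff 𝓘(ℝ, E m) 𝓘(ℝ, ℝ) 1 v) :
    Continuous (gradInner m n φ u v) := by
  refine continuous_iff_continuousAt.2 fun q => ?_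
  set e := chartAt (E m) q with he
  set T := e.target with hT
  have hTo : IsOpen T := e.open_target
  set F : E m → ℝ := fun x => ∑ i, ∑ j, (metricM m n φ q x)⁻¹ i j *
        pd i (u ∘ e.symm) x * pd j (v ∘ e.symm) x with hF
  have hGd : ∀ i j, ContDiffOn ℝ 1 (fun z => metricM m n φ q z i j) T := fun i j =>
    (metricM_contDiffOn h q i j).of_le (by norm_num)
  have hFc : ContinuousOn F T := by
    refine continuousOn_finsetSum _ fun i _ => continuousOn_finsetSum _ fun j _ => ?_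
    refine ((H30_contDiffOn_inv hGd (fun z hz => (H30_det_pos h hz).ne') i j).continuousOn.mul ?_).mul ?_
    · exact (contDiffOn_pd hTo (H30_symm_comp (by norm_num) hu) (k := 0) (by simp)).continuousOn
    · exact (contDiffOn_pd hTo (H30_symm_comp (by norm_num) hv) (k := 0) (by simp)).continuousOn
  have hq : q ∈ e.source := mem_chart_source _ q
  have hev : gradInner m n φ u v =ᶠ[𝓝 q] F ∘ e := by
    filter_upwards [e.open_source.mem_nhds hq] with z hz
    have hz' : e z ∈ T := e.map_source hz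
    have := gradInner_chart h (p := q) (x := e z) hz' (u := u) (v := v)
      ((hu _).mdifferentiableAt (by norm_num)) ((hv _).mdifferentiableAt (by norm_num))
    rw [← he, e.left_inv hz] at this
    rw [this]
    rfl
  refine ContinuousAt.congr ?_ hev.symm
  exact ContinuousAt.comp (hFc.continuousAt (hTo.mem_nhds (e.map_source hq))) (e.continuousAt hq)

omit [MeasurableSpace M] [BorelSpace M] [T2Space M] [SecondCountableTopology M]
  [IsManifold 𝓘(ℝ, E m) ∞ M] [IsManifold 𝓘(ℝ, E n) ∞ N]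
  [IsContMDiffRiemannianBundle 𝓘(ℝ, E n) ∞ (E n) (fun q : N => TangentSpace 𝓘(ℝ, E n) q)] in
theorem H30_gradInner_support {φ : M → N} (u v : M → ℝ) {q : M} (hq : q ∉ tsupport v) :
    gradInner m n φ u v q = 0 := by
  have hev : v =ᶠ[𝓝 q] fun _ => (0 : ℝ) := notMem_tsupport_iff_eventuallyEq.1 hq
  have hd : ∀ i, diffM m v q i = 0 := by
    intro i
    have : mfderiv 𝓘(ℝ, E m) 𝓘(ℝ, ℝ) v q = mfderiv 𝓘(ℝ, E m) 𝓘(ℝ, ℝ) (fun _ : M => (0 : ℝ)) q :=
      hev.mfderiv_eq
    unfold diffM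
    rw [this, mfderiv_const]
    rfl
  simp [gradInner, hd]

theorem H30_integrable_gradInner {φ : M → N} (h : IsImm m n φ) {μ : Measure M}
    (hμ : IsRiemVolume m n φ μ) {u v : M → ℝ}
    (hu : ContMDiff 𝓘(ℝ, E m) 𝓘(ℝ, ℝ) 1 u) (hv : ContMDiff 𝓘(ℝ, E m) 𝓘(ℝ, ℝ) 1 v)
    (hvc : HasCompactSupport v) : Integrable (gradInner m n φ u v) μ := by
  have := hμ.isLocallyFinite h
  have : LocallyCompactSpace M := Manifold.locallyCompact_of_finiteDimensional 𝓘(ℝ, E m)
  refine (H30_continuous_gradInner h hu hv).integrable_of_hasCompactSupport ?_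
  exact HasCompactSupport.intro hvc.isCompact fun q hq => H30_gradInner_support u v hq

omit [MeasurableSpace M] [BorelSpace M] [T2Space M] [SecondCountableTopology M]
  [IsManifold 𝓘(ℝ, E m) ∞ M] in
theorem H30_diffM_mul {f g : M → ℝ} {q : M} (hf : MDifferentiableAt 𝓘(ℝ, E m) 𝓘(ℝ, ℝ) f q)
    (hg : MDifferentiableAt 𝓘(ℝ, E m) 𝓘(ℝ, ℝ) g q) (j : Fin m) :
    diffM m (fun z => f z * g z) q j = f q * diffM m g q j + g q * diffM m f q j := by
  have h := (hf.hasMFDerivAt.mul hg.hasMFDerivAt).mfderiv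
  unfold diffM
  change (mfderiv 𝓘(ℝ, E m) 𝓘(ℝ, ℝ) (f * g) q) _ = _
  rw [h]
  rfl

theorem barta {φ : M → N} (h : IsImm m n φ) {μ : Measure M}
    (hμ : IsRiemVolume m n φ μ) {w b : M → ℝ}
    (hw : ContMDiff 𝓘(ℝ, E m) 𝓘(ℝ, ℝ) 2 w) (hw0 : ∀ p, 0 < w p) (hb : Measurable b) {C : ℝ}
    (hbC : ∀ p, |b p| ≤ C)
    (hle : ∀ (p : M) (x : E m), x ∈ (chartAt (E m) p).target →
      laplace (metricM m n φ p) (w ∘ (chartAt (E m) p).symm) x ≤
        - b ((chartAt (E m) p).symm x))
    {u : M → ℝ} (hu : IsTest m u) :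
    ∫ p, b p / w p * u p ^ 2 ∂μ ≤ dirichlet m n φ μ u u := by
  have hu1 : ContMDiff 𝓘(ℝ, E m) 𝓘(ℝ, ℝ) 1 u := hu.1.of_le (by norm_num)
  have hw1 : ContMDiff 𝓘(ℝ, E m) 𝓘(ℝ, ℝ) 1 w := hw.of_le (by norm_num)
  have hwi : ContMDiff 𝓘(ℝ, E m) 𝓘(ℝ, ℝ) 1 (fun z => (w z)⁻¹) := fun z =>
    ((contDiffAt_inv ℝ (hw0 z).ne' : ContDiffAt ℝ 1 Inv.inv (w z)).contMDiffAt).comp z (hw1 z)
  set ψ : M → ℝ := fun z => (u z * u z) * (w z)⁻¹ with hψ
  have hψ1 : ContMDiff 𝓘(ℝ, E m) 𝓘(ℝ, ℝ) 1 ψ := (hu1.mul hu1).mul hwi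
  have hψc : HasCompactSupport ψ := by
    have : HasCompactSupport (fun z => u z * (u z * (w z)⁻¹)) := hu.2.mul_right
    have e : ψ = fun z => u z * (u z * (w z)⁻¹) := by
      funext z; simp [hψ, mul_assoc]
    rw [e]; exact this
  have hψ0 : ∀ p, 0 ≤ ψ p := fun p => mul_nonneg (mul_self_nonneg _) (inv_nonneg.2 (hw0 p).le)
  have h1 := weak_ineq h hμ hw hb hbC hle hψ1 hψc hψ0
  have h2 : ∫ p, b p / w p * u p ^ 2 ∂μ = ∫ p, b p * ψ p ∂μ := by
    refine integral_congr_ae (ae_of_all _ fun p => ?_)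
    simp only [hψ]
    rw [div_eq_mul_inv]
    ring
  rw [h2]
  refine h1.trans ?_
  refine integral_mono (H30_integrable_gradInner h hμ hw1 hψ1 hψc)
    (H30_integrable_gradInner h hμ hu1 hu1 hu.2) fun q => ?_
  have hwq := (hw0 q).ne'
  have hmu : MDifferentiableAt 𝓘(ℝ, E m) 𝓘(ℝ, ℝ) u q := (hu1 q).mdifferentiableAt (by norm_num)
  have hmw : MDifferentiableAt 𝓘(ℝ, E m) 𝓘(ℝ, ℝ) w q := (hw1 q).mdifferentiableAt (by norm_num)
  have hmψ : MDifferentiableAt 𝓘(ℝ, E m) 𝓘(ℝ, ℝ) ψ q := (hψ1 q).mdifferentiableAt (by norm_num)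
  have hdψ : ∀ j, diffM m ψ q j = 2 * (u q / w q) * diffM m u q j - (u q / w q) ^ 2 * diffM m w q j := by
    intro j
    have e1 : (fun z => ψ z * w z) = fun z => u z * u z := by
      funext z
      simp only [hψ]
      field_simp [(hw0 z).ne']
    have e2 := H30_diffM_mul hmψ hmw j
    have e3 := H30_diffM_mul hmu hmu j
    rw [e1, e3] at e2
    have e4 : w q * diffM m ψ q j = 2 * u q * diffM m u q j - ψ q * diffM m w q j := by linarith
    have e5 : ψ q = u q ^ 2 / w q := by simp only [hψ]; rw [div_eq_mul_inv]; ring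
    rw [e5] at e4
    field_simp
    field_simp at e4
    linarith
  set a := u q / w q with ha
  have hpos := (gram_posDef h q).inv
  have h3 := bil_nonneg hpos (WithLp.toLp 2 (fun j => diffM m u q j - a * diffM m w q j) : E m)
  have h4 : bil (gram m n φ q)⁻¹ (WithLp.toLp 2 (fun j => diffM m u q j - a * diffM m w q j) : E m)
      (WithLp.toLp 2 (fun j => diffM m u q j - a * diffM m w q j) : E m) =
      gradInner m n φ u u q - 2 * a * gradInner m n φ w u q + a ^ 2 * gradInner m n φ w w q := by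
    have hc : gradInner m n φ u w q = gradInner m n φ w u q := by
      simp only [gradInner]
      rw [Finset.sum_comm]
      refine Finset.sum_congr rfl fun i _ => Finset.sum_congr rfl fun j _ => ?_
      rw [PosDef.symm' hpos j i]; ring
    have he : bil (gram m n φ q)⁻¹ (WithLp.toLp 2 (fun j => diffM m u q j - a * diffM m w q j) : E m)
      (WithLp.toLp 2 (fun j => diffM m u q j - a * diffM m w q j) : E m) =
      gradInner m n φ u u q - a * gradInner m n φ w u q - a * gradInner m n φ u w q +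
        a ^ 2 * gradInner m n φ w w q := by
      simp only [gradInner, bil, Finset.mul_sum]
      rw [← Finset.sum_sub_distrib, ← Finset.sum_sub_distrib, ← Finset.sum_add_distrib]
      refine Finset.sum_congr rfl fun i _ => ?_
      rw [← Finset.sum_sub_distrib, ← Finset.sum_sub_distrib, ← Finset.sum_add_distrib]
      refine Finset.sum_congr rfl fun j _ => ?_
      ring
    rw [he, hc]; ring
  have h5 : gradInner m n φ w ψ q = 2 * a * gradInner m n φ w u q - a ^ 2 * gradInner m n φ w w q := by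
    simp only [gradInner, hdψ, Finset.mul_sum]
    rw [← Finset.sum_sub_distrib]
    refine Finset.sum_congr rfl fun i _ => ?_
    rw [← Finset.sum_sub_distrib]
    refine Finset.sum_congr rfl fun j _ => ?_
    ring
  linarith

end Ba

end Pool.Agent.helper43.MS
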