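import Pool.Agent.helper43.MS.Defs
import Pool.Agent.helper91.MS.M0

open Bundle Manifold MeasureTheory Set Filter Topology
open scoped ContDiff ENNReal

namespace Pool.Agent.helper43.MS


/-! ### Module V : the Riemannian volume -/
section V
variable {m n : ℕ} {M : Type*} [TopologicalSpace M] [ChartedSpace (E m) M]
  [IsManifold 𝓘(ℝ, E m) ∞ M] [MeasurableSpace M] [BorelSpace M]
  {N : Type*} [TopologicalSpace N] [ChartedSpace (E n) N] [IsManifold 𝓘(ℝ, E n) ∞ N]
  [RiemannianBundle (fun q : N => TangentSpace 𝓘(ℝ, E n) q)]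
  [IsContMDiffRiemannianBundle 𝓘(ℝ, E n) ∞ (E n) (fun q : N => TangentSpace 𝓘(ℝ, E n) q)]

omit [IsManifold 𝓘(ℝ, E m) ∞ M] in
/-- the inverse chart, restricted to a measurable subset of the target, is a measurable embedding -/
theorem measurableEmbedding_chart_symm (p : M) {s : Set (E m)} (hs : MeasurableSet s)
    (hst : s ⊆ (chartAt (E m) p).target) :
    MeasurableEmbedding (fun x : s => (chartAt (E m) p).symm (x : E m)) := by
  have hcont : Continuous (fun x : s => (chartAt (E m) p).symm (x : E m)) :=
    continuousOn_iff_continuous_domRestrict.1 ((chartAt (E m) p).continuousOn_symm.mono hst)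
  refine ⟨?_, hcont.measurable, ?_⟩
  · intro x y hxy
    exact Subtype.ext ((chartAt (E m) p).symm.injOn (hst x.2) (hst y.2) hxy)
  · intro t ht
    have himg : (fun x : s => (chartAt (E m) p).symm (x : E m)) '' t =
        (↑) '' {z : (chartAt (E m) p).source | (chartAt (E m) p) (z : M) ∈ ((↑) : s → E m) '' t} := by
      ext z
      constructor
      · rintro ⟨x, hx, rfl⟩
        refine ⟨⟨(chartAt (E m) p).symm x, (chartAt (E m) p).map_target (hst x.2)⟩, ?_, rfl⟩
        refine ⟨x, hx, ?_⟩
        simp [(chartAt (E m) p).right_inv (hst x.2)]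
      · rintro ⟨⟨z, hz⟩, ⟨x, hx, hxz⟩, rfl⟩
        refine ⟨x, hx, ?_⟩
        simp only at hxz ⊢
        rw [hxz, (chartAt (E m) p).left_inv hz]
    rw [himg]
    have hsrc : MeasurableSet ((chartAt (E m) p).source) := (chartAt (E m) p).open_source.measurableSet
    refine (MeasurableEmbedding.subtype_coe hsrc).measurableSet_image.2 ?_
    have hc : Continuous (fun z : (chartAt (E m) p).source => (chartAt (E m) p) (z : M)) :=
      continuousOn_iff_continuous_domRestrict.1 (chartAt (E m) p).continuousOn
    exact hc.measurable ((MeasurableEmbedding.subtype_coe hs).measurableSet_image.2 ht)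

omit [IsManifold 𝓘(ℝ, E m) ∞ M] [MeasurableSpace M] [BorelSpace M] in
theorem range_chart_symm (p : M) (s : Set (E m)) :
    Set.range (fun x : s => (chartAt (E m) p).symm (x : E m)) = (chartAt (E m) p).symm '' s := by
  ext z; simp

omit [MeasurableSpace M] [BorelSpace M] in
theorem continuousOn_det_metricM {φ : M → N} (h : IsImm m n φ) (p : M) :
    ContinuousOn (fun x => √((metricM m n φ p x).det)) (chartAt (E m) p).target := by
  have h1 : ContinuousOn (fun x => metricM m n φ p x) (chartAt (E m) p).target := by
    refine continuousOn_pi.2 fun i => continuousOn_pi.2 fun j => ?_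
    exact (metricM_contDiffOn h p i j).continuousOn
  have h2 : ContinuousOn (fun x => (metricM m n φ p x).det) (chartAt (E m) p).target := by
    have := (Continuous.matrix_det (continuous_id (X := Matrix (Fin m) (Fin m) ℝ)))
    exact this.comp_continuousOn h1
  exact h2.sqrt

omit [IsManifold 𝓘(ℝ, E m) ∞ M] [IsManifold 𝓘(ℝ, E n) ∞ N]
  [IsContMDiffRiemannianBundle 𝓘(ℝ, E n) ∞ (E n) (fun q : N => TangentSpace 𝓘(ℝ, E n) q)] in
theorem IsRiemVolume.restrict_eq {φ : M → N} {μ : Measure M}
    (hμ : IsRiemVolume m n φ μ) (p : M) {s : Set (E m)} (hs : MeasurableSet s)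
    (hst : s ⊆ (chartAt (E m) p).target) :
    μ.restrict ((chartAt (E m) p).symm '' s) =
      Measure.map (fun x : s => (chartAt (E m) p).symm (x : E m))
        ((Measure.comap ((↑) : s → E m) volume).withDensity
          (fun x : s => ENNReal.ofReal (√((metricM m n φ p (x : E m)).det)))) := by
  have hemb := measurableEmbedding_chart_symm p hs hst
  ext A hA
  rw [hemb.map_apply, Measure.restrict_apply hA]
  have himg : A ∩ (chartAt (E m) p).symm '' s = (chartAt (E m) p).symm ''
      (((↑) : s → E m) '' ((fun x : s => (chartAt (E m) p).symm (x : E m)) ⁻¹' A)) := by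
    ext z
    constructor
    · rintro ⟨hz, x, hx, rfl⟩
      exact ⟨x, ⟨⟨x, hx⟩, hz, rfl⟩, rfl⟩
    · rintro ⟨x, ⟨y, hy, rfl⟩, rfl⟩
      exact ⟨hy, y, y.2, rfl⟩
  have hmeas : MeasurableSet ((fun x : s => (chartAt (E m) p).symm (x : E m)) ⁻¹' A) :=
    hemb.measurable hA
  have hmeas' : MeasurableSet
      (((↑) : s → E m) '' ((fun x : s => (chartAt (E m) p).symm (x : E m)) ⁻¹' A)) :=
    (MeasurableEmbedding.subtype_coe hs).measurableSet_image.2 hmeas
  have hsub : (((↑) : s → E m) '' ((fun x : s => (chartAt (E m) p).symm (x : E m)) ⁻¹' A)) ⊆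
      (chartAt (E m) p).target := by
    rintro _ ⟨x, _, rfl⟩; exact hst x.2
  rw [himg, hμ p _ hmeas' hsub, withDensity_apply _ hmeas]
  rw [(MeasurableEmbedding.subtype_coe hs).restrict_comap,
    lintegral_subtype_comap (μ := volume.restrict
      (((↑) : s → E m) '' ((fun x : s => (chartAt (E m) p).symm (x : E m)) ⁻¹' A))) hs
      (fun x => ENNReal.ofReal (√((metricM m n φ p x).det))),
    Measure.restrict_restrict hs]
  congr 2
  refine (Set.inter_eq_right.2 ?_).symm
  rintro _ ⟨x, _, rfl⟩; exact x.2

omit [MeasurableSpace M] [BorelSpace M] in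
theorem measurable_det_metricM {φ : M → N} (h : IsImm m n φ) (p : M) {s : Set (E m)}
    (hst : s ⊆ (chartAt (E m) p).target) :
    Measurable (fun x : s => √((metricM m n φ p (x : E m)).det)) := by
  have := continuousOn_iff_continuous_domRestrict.1 ((continuousOn_det_metricM h p).mono hst)
  exact this.measurable

theorem IsRiemVolume.setLIntegral {φ : M → N} (h : IsImm m n φ) {μ : Measure M}
    (hμ : IsRiemVolume m n φ μ) (p : M) {s : Set (E m)} (hs : MeasurableSet s)
    (hst : s ⊆ (chartAt (E m) p).target) (f : M → ℝ≥0∞) (hf : Measurable f) :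
    ∫⁻ p' in (chartAt (E m) p).symm '' s, f p' ∂μ =
      ∫⁻ x in s, f ((chartAt (E m) p).symm x) *
        ENNReal.ofReal (√((metricM m n φ p x).det)) := by
  have hemb := measurableEmbedding_chart_symm p hs hst
  rw [hμ.restrict_eq p hs hst, hemb.lintegral_map]
  refine (lintegral_withDensity_eq_lintegral_mul (Measure.comap ((↑) : s → E m) volume)
    (measurable_det_metricM h p hst).ennreal_ofReal (hf.comp hemb.measurable)).trans ?_
  rw [← lintegral_subtype_comap (μ := volume) hs (fun x => f ((chartAt (E m) p).symm x) *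
        ENNReal.ofReal (√((metricM m n φ p x).det)))]
  refine lintegral_congr fun x => ?_
  simp [mul_comm]

/-- For real functions (no measurability assumption is needed: both sides are `0` for
non-integrable functions). -/
theorem IsRiemVolume.setIntegral {φ : M → N} (h : IsImm m n φ) {μ : Measure M}
    (hμ : IsRiemVolume m n φ μ) (p : M) {s : Set (E m)} (hs : MeasurableSet s)
    (hst : s ⊆ (chartAt (E m) p).target) (f : M → ℝ) :
    ∫ p' in (chartAt (E m) p).symm '' s, f p' ∂μ =
      ∫ x in s, f ((chartAt (E m) p).symm x) * √((metricM m n φ p x).det) := by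
  have hemb := measurableEmbedding_chart_symm p hs hst
  rw [hμ.restrict_eq p hs hst, hemb.integral_map]
  rw [integral_withDensity_eq_integral_toReal_smul
    (measurable_det_metricM h p hst).ennreal_ofReal (ae_of_all _ fun _ => ENNReal.ofReal_lt_top)]
  rw [← integral_subtype_comap (μ := volume) hs (fun x => f ((chartAt (E m) p).symm x) *
        √((metricM m n φ p x).det))]
  refine integral_congr_ae (ae_of_all _ fun x => ?_)
  simp only [smul_eq_mul, ENNReal.toReal_ofReal (Real.sqrt_nonneg _)]
  ring

/-- integrability in a chart -/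
theorem IsRiemVolume.integrableOn_iff {φ : M → N} (h : IsImm m n φ) {μ : Measure M}
    (hμ : IsRiemVolume m n φ μ) (p : M) {s : Set (E m)} (hs : MeasurableSet s)
    (hst : s ⊆ (chartAt (E m) p).target) (f : M → ℝ) :
    IntegrableOn f ((chartAt (E m) p).symm '' s) μ ↔
      IntegrableOn (fun x => f ((chartAt (E m) p).symm x) * √((metricM m n φ p x).det)) s := by
  have hemb := measurableEmbedding_chart_symm p hs hst
  rw [IntegrableOn, hμ.restrict_eq p hs hst, hemb.integrable_map_iff,
    integrable_withDensity_iff_integrable_smul'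
      (measurable_det_metricM h p hst).ennreal_ofReal (ae_of_all _ fun _ => ENNReal.ofReal_lt_top)]
  have h1 : volume.restrict s = Measure.map ((↑) : s → E m) (Measure.comap ((↑) : s → E m) volume) := by
    rw [(MeasurableEmbedding.subtype_coe hs).map_comap, Subtype.range_coe]
  rw [IntegrableOn, h1, (MeasurableEmbedding.subtype_coe hs).integrable_map_iff]
  refine integrable_congr (ae_of_all _ fun x => ?_)
  simp only [smul_eq_mul, ENNReal.toReal_ofReal (Real.sqrt_nonneg _), Function.comp]
  ring

theorem IsRiemVolume.isLocallyFinite {φ : M → N} (h : IsImm m n φ) {μ : Measure M}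
    (hμ : IsRiemVolume m n φ μ) : IsLocallyFiniteMeasure μ := by
  refine ⟨fun p => ?_⟩
  have hpt : chartAt (E m) p p ∈ (chartAt (E m) p).target := mem_chart_target _ p
  obtain ⟨r, hr, hball⟩ := Metric.nhds_basis_closedBall.mem_iff.1
    ((chartAt (E m) p).open_target.mem_nhds hpt)
  have hms : MeasurableSet (Metric.closedBall (chartAt (E m) p p) r) :=
    Metric.isClosed_closedBall.measurableSet
  refine ⟨(chartAt (E m) p).symm '' Metric.closedBall (chartAt (E m) p p) r, ?_, ?_⟩
  · have h1 := (chartAt (E m) p).symm.image_mem_nhds (x := chartAt (E m) p p) (by simp)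
      (Metric.closedBall_mem_nhds _ hr)
    rwa [(chartAt (E m) p).left_inv (mem_chart_source (E m) p)] at h1
  · rw [hμ p _ hms hball]
    obtain ⟨C, hC⟩ := (isCompact_closedBall (chartAt (E m) p p) r).bddAbove_image
      ((continuousOn_det_metricM h p).mono hball)
    calc ∫⁻ x in Metric.closedBall (chartAt (E m) p p) r,
          ENNReal.ofReal (√((metricM m n φ p x).det))
        ≤ ∫⁻ x in Metric.closedBall (chartAt (E m) p p) r, ENNReal.ofReal C := by
          refine setLIntegral_mono' hms fun x hx => ENNReal.ofReal_le_ofReal ?_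
          exact hC ⟨x, hx, rfl⟩
      _ = ENNReal.ofReal C * volume (Metric.closedBall (chartAt (E m) p p) r) := by
          rw [setLIntegral_const]
      _ < ⊤ := ENNReal.mul_lt_top ENNReal.ofReal_lt_top (isCompact_closedBall _ _).measure_lt_top

end V

end Pool.Agent.helper43.MS
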