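import Pool.Agent.helper43.MS.Defs
import Pool.Agent.helper43.MS.Pd
import Pool.Agent.helper91.MS.M0
import Pool.Agent.helper30.MS.V

open Bundle Manifold MeasureTheory Set Filter Topology
open scoped ContDiff ENNReal

namespace Pool.Agent.helper43.MS

/-! ### smoothness of determinants and inverses -/

theorem H30_contDiffOn_det {k : ℕ} {ι : Type*} [Fintype ι] [DecidableEq ι]
    {A : E k → Matrix ι ι ℝ} {T : Set (E k)} {l : WithTop ℕ∞}
    (h : ∀ i j, ContDiffOn ℝ l (fun z => A z i j) T) : ContDiffOn ℝ l (fun z => (A z).det) T := by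
  simp only [Matrix.det_apply']
  refine ContDiffOn.sum fun σ _ => ?_
  refine contDiffOn_const.mul ?_
  exact contDiffOn_prod fun i _ => h _ _

theorem H30_contDiffOn_inv {k : ℕ} {ι : Type*} [Fintype ι] [DecidableEq ι]
    {A : E k → Matrix ι ι ℝ} {T : Set (E k)} {l : WithTop ℕ∞}
    (h : ∀ i j, ContDiffOn ℝ l (fun z => A z i j) T) (hne : ∀ z ∈ T, (A z).det ≠ 0) (i j : ι) :
    ContDiffOn ℝ l (fun z => (A z)⁻¹ i j) T := by
  have h1 : ∀ z, (A z)⁻¹ i j = ((A z).det)⁻¹ * ((A z).updateRow j (Pi.single i 1)).det := by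
    intro z
    rw [Matrix.inv_def, Matrix.smul_apply, Ring.inverse_eq_inv', Matrix.adjugate_apply, smul_eq_mul]
  simp only [h1]
  refine (ContDiffOn.inv (H30_contDiffOn_det h) hne).mul (H30_contDiffOn_det fun a b => ?_)
  by_cases hab : a = j
  · subst hab
    simp only [Matrix.updateRow_self]
    exact contDiffOn_const
  · simp only [Matrix.updateRow_ne hab]
    exact h a b

theorem H30_integrable {k : ℕ} {L : Set (E k)} (hL : IsCompact L) {F : E k → ℝ}
    (hF : ContinuousOn F L) (h0 : ∀ x, x ∉ L → F x = 0) : Integrable F :=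
  (hF.integrableOn_compact hL).integrable_of_forall_notMem_eq_zero h0

/-- divergence theorem with compact support -/
theorem H30_div {k : ℕ} {T L : Set (E k)} (hT : IsOpen T) (hL : IsCompact L) (hLT : L ⊆ T)
    {V : Fin k → E k → ℝ} (hV : ∀ i, ContDiffOn ℝ 1 (V i) T) {g : E k → ℝ} (hg : ContDiff ℝ 1 g)
    (hg0 : ∀ x, x ∉ L → g x = 0) :
    Integrable (fun x => ∑ i, V i x * pd i g x) ∧ Integrable (fun x => (∑ i, pd i (V i) x) * g x) ∧
    ∫ x, ∑ i, V i x * pd i g x = - ∫ x, (∑ i, pd i (V i) x) * g x := by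
  have hLc : IsClosed L := hL.isClosed
  have hgs : tsupport g ⊆ L := closure_minimal (fun x hx => by
    by_contra hxL; exact hx (hg0 x hxL)) hLc
  have hpd0 : ∀ i x, x ∉ L → pd i g x = 0 := by
    intro i x hx
    have : g =ᶠ[𝓝 x] fun _ => 0 := by
      filter_upwards [hLc.isOpen_compl.mem_nhds hx] with y hy using hg0 y hy
    rw [pd_congr this, pd_const]
  have hI1 : ∀ i, Integrable (fun x => V i x * pd i g x) := fun i => by
    refine H30_integrable hL ?_ fun x hx => by rw [hpd0 i x hx, mul_zero]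
    exact ((hV i).continuousOn.mono hLT).mul
      (contDiff_pd hg (k := 0) (by simp)).continuous.continuousOn
  have hI2 : ∀ i, Integrable (fun x => pd i (V i) x * g x) := fun i => by
    refine H30_integrable hL ?_ fun x hx => by rw [hg0 x hx, mul_zero]
    exact ((contDiffOn_pd hT (hV i) (k := 0) (by simp)).continuousOn.mono hLT).mul
      hg.continuous.continuousOn
  have hI3 : ∀ i, Integrable (fun x => V i x * g x) := fun i => by
    refine H30_integrable hL ?_ fun x hx => by rw [hg0 x hx, mul_zero]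
    exact ((hV i).continuousOn.mono hLT).mul hg.continuous.continuousOn
  have hibp : ∀ i, ∫ x, V i x * pd i g x = - ∫ x, pd i (V i) x * g x := fun i => by
    refine integral_mul_fderiv_eq_neg_fderiv_mul_of_integrable (f := V i) (g := g) (v := bv i)
      (hI2 i) (hI1 i) (hI3 i) (fun x hx => ?_) (fun x _ => hg.differentiable (by norm_num) x)
    exact ((hV i).contDiffAt (hT.mem_nhds (hLT (hgs hx)))).differentiableAt (by norm_num)
  refine ⟨integrable_finsetSum _ fun i _ => hI1 i, ?_, ?_⟩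
  · simp only [Finset.sum_mul]
    exact integrable_finsetSum _ fun i _ => hI2 i
  · simp only [Finset.sum_mul]
    rw [integral_finsetSum _ fun i _ => hI1 i, integral_finsetSum _ fun i _ => hI2 i,
      ← Finset.sum_neg_distrib]
    exact Finset.sum_congr rfl fun i _ => hibp i

section D
variable {m n : ℕ} {M : Type*} [TopologicalSpace M] [T2Space M] [SecondCountableTopology M]
  [ChartedSpace (E m) M] [IsManifold 𝓘(ℝ, E m) ∞ M] [MeasurableSpace M] [BorelSpace M]
  {N : Type*} [TopologicalSpace N] [ChartedSpace (E n) N] [IsManifold 𝓘(ℝ, E n) ∞ N]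
  [RiemannianBundle (fun q : N => TangentSpace 𝓘(ℝ, E n) q)]
  [IsContMDiffRiemannianBundle 𝓘(ℝ, E n) ∞ (E n) (fun q : N => TangentSpace 𝓘(ℝ, E n) q)]

omit [MeasurableSpace M] [BorelSpace M] [T2Space M] [SecondCountableTopology M] in
theorem H30_det_pos {φ : M → N} (h : IsImm m n φ) {p : M} {x : E m}
    (hx : x ∈ (chartAt (E m) p).target) : 0 < (metricM m n φ p x).det :=
  (metricM_posDef h hx).det_pos

omit [MeasurableSpace M] [BorelSpace M] [T2Space M] [SecondCountableTopology M] in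
theorem H30_symm_comp {p : M} {l : WithTop ℕ∞} (hl : l ≤ ((⊤ : ℕ∞) : WithTop ℕ∞)) {w : M → ℝ}
    (hw : ContMDiff 𝓘(ℝ, E m) 𝓘(ℝ, ℝ) l w) :
    ContDiffOn ℝ l (w ∘ (chartAt (E m) p).symm) (chartAt (E m) p).target := by
  intro x hx
  have h1 : ContMDiffAt 𝓘(ℝ, E m) 𝓘(ℝ, E m) l (chartAt (E m) p).symm x :=
    (M91_mdiff_symm hx).of_le hl
  exact (contMDiffAt_iff_contDiffAt.1 ((hw _).comp x h1)).contDiffWithinAt

/-- the weak inequality for test functions supported in one chart -/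
theorem H30_weak_local {φ : M → N} (h : IsImm m n φ) {μ : Measure M}
    (hμ : IsRiemVolume m n φ μ) {w b : M → ℝ}
    (hw : ContMDiff 𝓘(ℝ, E m) 𝓘(ℝ, ℝ) 2 w) (hb : Measurable b) {C : ℝ} (hbC : ∀ p, |b p| ≤ C)
    (hle : ∀ (p : M) (x : E m), x ∈ (chartAt (E m) p).target →
      laplace (metricM m n φ p) (w ∘ (chartAt (E m) p).symm) x ≤
        - b ((chartAt (E m) p).symm x))
    (p : M) {ψ : M → ℝ} (hψ : ContMDiff 𝓘(ℝ, E m) 𝓘(ℝ, ℝ) 1 ψ) (hψc : HasCompactSupport ψ)
    (hsupp : tsupport ψ ⊆ (chartAt (E m) p).source)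
    (hψ0 : ∀ p, 0 ≤ ψ p) :
    Integrable (fun p => b p * ψ p) μ ∧ Integrable (gradInner m n φ w ψ) μ ∧
      ∫ p, b p * ψ p ∂μ ≤ ∫ p, gradInner m n φ w ψ p ∂μ := by
  classical
  have := hμ.isLocallyFinite h
  set e := chartAt (E m) p with he
  set T := e.target with hT
  have hTo : IsOpen T := e.open_target
  set G := metricM m n φ p with hG
  set L := e '' tsupport ψ with hL
  have hLc : IsCompact L := hψc.isCompact.image_of_continuousOn (e.continuousOn.mono hsupp)
  have hLT : L ⊆ T := by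
    rintro _ ⟨z, hz, rfl⟩; exact e.map_source (hsupp hz)
  set g : E m → ℝ := T.indicator (ψ ∘ e.symm) with hgdef
  have hgT : ∀ x ∈ T, g x = ψ (e.symm x) := fun x hx => by simp [hgdef, hx]
  have hg0 : ∀ x, x ∉ L → g x = 0 := by
    intro x hx
    by_cases hxT : x ∈ T
    · rw [hgT x hxT]
      by_contra hne
      exact hx ⟨e.symm x, subset_tsupport _ hne, e.right_inv hxT⟩
    · simp [hgdef, hxT]
  have hgev : ∀ x ∈ T, g =ᶠ[𝓝 x] ψ ∘ e.symm := fun x hx => by
    filter_upwards [hTo.mem_nhds hx] with y hy using hgT y hy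
  have hψsymm : ContDiffOn ℝ 1 (ψ ∘ e.symm) T := H30_symm_comp (by norm_num) hψ
  have hg : ContDiff ℝ 1 g := by
    refine contDiff_iff_contDiffAt.2 fun x => ?_
    by_cases hxT : x ∈ T
    · exact (hψsymm.contDiffAt (hTo.mem_nhds hxT)).congr_of_eventuallyEq (hgev x hxT)
    · have hxL : x ∉ L := fun hx => hxT (hLT hx)
      have : g =ᶠ[𝓝 x] fun _ => 0 := by
        filter_upwards [hLc.isClosed.isOpen_compl.mem_nhds hxL] with y hy using hg0 y hy
      exact contDiffAt_const.congr_of_eventuallyEq this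
  -- the vector field
  set wh := w ∘ e.symm with hwh
  have hwhd : ContDiffOn ℝ 2 wh T := H30_symm_comp (WithTop.coe_le_coe.2 (le_top : (2 : ℕ∞) ≤ ⊤)) hw
  set V : Fin m → E m → ℝ := fun i z => √((G z).det) * ∑ j, (G z)⁻¹ i j * pd j wh z with hVdef
  have hGd : ∀ i j, ContDiffOn ℝ 1 (fun z => G z i j) T := fun i j =>
    (metricM_contDiffOn h p i j).of_le (by norm_num)
  have hdet : ∀ z ∈ T, 0 < (G z).det := fun z hz => H30_det_pos h hz
  have hV : ∀ i, ContDiffOn ℝ 1 (V i) T := fun i => by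
    refine (ContDiffOn.sqrt (H30_contDiffOn_det hGd) fun z hz => (hdet z hz).ne').mul ?_
    refine ContDiffOn.sum fun j _ => ?_
    exact (H30_contDiffOn_inv hGd (fun z hz => (hdet z hz).ne') i j).mul
      (contDiffOn_pd hTo hwhd (by norm_num))
  obtain ⟨hJ1, hJ2, hdiv⟩ := H30_div hTo hLc hLT hV hg hg0
  -- pointwise identities
  have hlap : ∀ x ∈ T, ∑ i, pd i (V i) x = √((G x).det) * laplace G wh x := fun x hx => by
    have : √((G x).det) ≠ 0 := (Real.sqrt_pos.2 (hdet x hx)).ne'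
    simp only [laplace, hVdef]
    field_simp
  have hpdg : ∀ x ∈ T, ∀ i, pd i g x = pd i (ψ ∘ e.symm) x := fun x hx i => pd_congr (hgev x hx)
  have hgrad : ∀ x ∈ T, gradInner m n φ w ψ (e.symm x) * √((G x).det) = ∑ i, V i x * pd i g x := by
    intro x hx
    have hsymm : ∀ i j, (G x)⁻¹ i j = (G x)⁻¹ j i := by
      intro i j
      have h1 : ((G x)⁻¹).PosDef := (metricM_posDef h hx).inv
      exact PosDef.symm' h1 i j
    rw [gradInner_chart h hx ((hw _).mdifferentiableAt (by norm_num))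
      ((hψ _).mdifferentiableAt (by norm_num))]
    have h2 : ∑ i, V i x * pd i g x = ∑ i, ∑ j, √((G x).det) * ((G x)⁻¹ i j * pd j wh x *
        pd i (ψ ∘ e.symm) x) := by
      refine Finset.sum_congr rfl fun i _ => ?_
      rw [hpdg x hx i]
      simp only [hVdef]
      rw [Finset.mul_sum, Finset.sum_mul]
      exact Finset.sum_congr rfl fun j _ => by ring
    rw [h2, Finset.sum_comm, Finset.sum_mul]
    refine Finset.sum_congr rfl fun i _ => ?_
    rw [Finset.sum_mul]
    refine Finset.sum_congr rfl fun j _ => ?_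
    rw [hsymm j i]
    ring
  -- integrability
  have hTm : MeasurableSet T := hTo.measurableSet
  have hI1 : Integrable (fun q => b q * ψ q) μ := by
    refine Integrable.bdd_mul (c := C) (hψ.continuous.integrable_of_hasCompactSupport hψc)
      hb.aestronglyMeasurable (ae_of_all _ fun q => ?_)
    simpa using hbC q
  have himg : e.symm '' T = e.source := e.symm_image_target_eq_source
  have hgz : ∀ q, q ∉ e.source → gradInner m n φ w ψ q = 0 := by
    intro q hq
    have hq' : q ∉ tsupport ψ := fun hx => hq (hsupp hx)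
    have hev : ψ =ᶠ[𝓝 q] fun _ => (0 : ℝ) := by
      have := notMem_tsupport_iff_eventuallyEq.1 hq'
      exact this
    have hd : ∀ i, diffM m ψ q i = 0 := by
      intro i
      have : mfderiv 𝓘(ℝ, E m) 𝓘(ℝ, ℝ) ψ q = mfderiv 𝓘(ℝ, E m) 𝓘(ℝ, ℝ) (fun _ : M => (0 : ℝ)) q :=
        hev.mfderiv_eq
      unfold diffM
      rw [this, mfderiv_const]
      rfl
    simp [gradInner, hd]
  have hbz : ∀ q, q ∉ e.source → b q * ψ q = 0 := by
    intro q hq
    have hq' : q ∉ tsupport ψ := fun hx => hq (hsupp hx)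
    rw [image_eq_zero_of_notMem_tsupport hq', mul_zero]
  have hJ1T : IntegrableOn (fun x => ∑ i, V i x * pd i g x) T := hJ1.integrableOn
  have hI2T : IntegrableOn (fun x => gradInner m n φ w ψ (e.symm x) * √((G x).det)) T :=
    hJ1T.congr_fun (fun x hx => (hgrad x hx).symm) hTm
  have hI2 : Integrable (gradInner m n φ w ψ) μ := by
    have h1 : IntegrableOn (gradInner m n φ w ψ) (e.symm '' T) μ :=
      (hμ.integrableOn_iff h p hTm (subset_refl _) _).2 hI2T
    rw [himg] at h1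
    exact h1.integrable_of_forall_notMem_eq_zero hgz
  have hI1T : IntegrableOn (fun x => b (e.symm x) * ψ (e.symm x) * √((G x).det)) T :=
    (hμ.integrableOn_iff h p hTm (subset_refl _) (fun q => b q * ψ q)).1 hI1.integrableOn
  refine ⟨hI1, hI2, ?_⟩
  have hE1 : ∫ q, b q * ψ q ∂μ = ∫ x in T, b (e.symm x) * ψ (e.symm x) * √((G x).det) := by
    rw [← hμ.setIntegral h p hTm (subset_refl _) (fun q => b q * ψ q)]
    change _ = ∫ q in e.symm '' T, b q * ψ q ∂μ
    rw [himg]
    exact (setIntegral_eq_integral_of_forall_compl_eq_zero hbz).symm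
  have hE2 : ∫ q, gradInner m n φ w ψ q ∂μ = ∫ x in T, ∑ i, V i x * pd i g x := by
    rw [← setIntegral_congr_fun hTm fun x hx => hgrad x hx,
      ← hμ.setIntegral h p hTm (subset_refl _) (gradInner m n φ w ψ)]
    change _ = ∫ q in e.symm '' T, gradInner m n φ w ψ q ∂μ
    rw [himg]
    exact (setIntegral_eq_integral_of_forall_compl_eq_zero hgz).symm
  have hE3 : ∫ x in T, ∑ i, V i x * pd i g x = ∫ x in T, - ((∑ i, pd i (V i) x) * g x) := by
    rw [setIntegral_eq_integral_of_forall_compl_eq_zero (s := T), hdiv,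
      setIntegral_eq_integral_of_forall_compl_eq_zero (s := T), integral_neg]
    · intro x hx
      rw [hg0 x fun hxL => hx (hLT hxL)]; simp
    · intro x hx
      have hxL : x ∉ L := fun hxL => hx (hLT hxL)
      have : g =ᶠ[𝓝 x] fun _ => 0 := by
        filter_upwards [hLc.isClosed.isOpen_compl.mem_nhds hxL] with y hy using hg0 y hy
      refine Finset.sum_eq_zero fun i _ => ?_
      rw [pd_congr this, pd_const, mul_zero]
  rw [hE1, hE2, hE3]
  refine setIntegral_mono_on hI1T hJ2.neg.integrableOn hTm fun x hx => ?_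
  have h1 := hle p x hx
  change laplace G wh x ≤ - b (e.symm x) at h1
  rw [hlap x hx, hgT x hx]
  have h2 : 0 ≤ √((G x).det) * ψ (e.symm x) := mul_nonneg (Real.sqrt_nonneg _) (hψ0 _)
  nlinarith

omit [MeasurableSpace M] [BorelSpace M] [T2Space M] [SecondCountableTopology M]
  [IsManifold 𝓘(ℝ, E m) ∞ M] in
theorem H30_diffM_add {f g : M → ℝ} {q : M} (hf : MDifferentiableAt 𝓘(ℝ, E m) 𝓘(ℝ, ℝ) f q)
    (hg : MDifferentiableAt 𝓘(ℝ, E m) 𝓘(ℝ, ℝ) g q) (j : Fin m) :
    diffM m (fun z => f z + g z) q j = diffM m f q j + diffM m g q j := by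
  have h := (hf.hasMFDerivAt.add hg.hasMFDerivAt).mfderiv
  unfold diffM
  change (mfderiv 𝓘(ℝ, E m) 𝓘(ℝ, ℝ) (f + g) q) _ = _
  rw [h]
  rfl

omit [MeasurableSpace M] [BorelSpace M] [T2Space M] [SecondCountableTopology M]
  [IsManifold 𝓘(ℝ, E m) ∞ M] in
theorem H30_diffM_const (c : ℝ) (q : M) (j : Fin m) : diffM m (fun _ : M => c) q j = 0 := by
  unfold diffM
  rw [mfderiv_const]
  rfl

omit [MeasurableSpace M] [BorelSpace M] [T2Space M] [SecondCountableTopology M]
  [IsManifold 𝓘(ℝ, E m) ∞ M] in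
theorem H30_mdiff_sum {ι : Type*} (s : Finset ι) (ψ : ι → M → ℝ)
    (hψ : ∀ i ∈ s, MDifferentiable 𝓘(ℝ, E m) 𝓘(ℝ, ℝ) (ψ i)) :
    MDifferentiable 𝓘(ℝ, E m) 𝓘(ℝ, ℝ) (fun z => ∑ i ∈ s, ψ i z) := by
  classical
  induction s using Finset.induction_on with
  | empty => simpa using mdifferentiable_const
  | insert a s ha ih =>
    have h1 := ih fun i hi => hψ i (Finset.mem_insert_of_mem hi)
    have h2 := hψ a (Finset.mem_insert_self _ _)
    intro q
    simp only [Finset.sum_insert ha]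
    exact (h2 q).add (h1 q)

omit [MeasurableSpace M] [BorelSpace M] [T2Space M] [SecondCountableTopology M]
  [IsManifold 𝓘(ℝ, E m) ∞ M] in
theorem H30_diffM_sum {ι : Type*} (s : Finset ι) (ψ : ι → M → ℝ)
    (hψ : ∀ i ∈ s, MDifferentiable 𝓘(ℝ, E m) 𝓘(ℝ, ℝ) (ψ i)) (q : M) (j : Fin m) :
    diffM m (fun z => ∑ i ∈ s, ψ i z) q j = ∑ i ∈ s, diffM m (ψ i) q j := by
  classical
  induction s using Finset.induction_on with
  | empty => simpa using H30_diffM_const (m := m) 0 q j
  | insert a s ha ih =>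
    have h1 := H30_mdiff_sum s ψ fun i hi => hψ i (Finset.mem_insert_of_mem hi)
    have h2 := hψ a (Finset.mem_insert_self _ _)
    simp only [Finset.sum_insert ha]
    rw [H30_diffM_add (h2 q) (h1 q), ih fun i hi => hψ i (Finset.mem_insert_of_mem hi)]

omit [MeasurableSpace M] [BorelSpace M] [T2Space M] [SecondCountableTopology M]
  [IsManifold 𝓘(ℝ, E m) ∞ M] [IsManifold 𝓘(ℝ, E n) ∞ N]
  [IsContMDiffRiemannianBundle 𝓘(ℝ, E n) ∞ (E n) (fun q : N => TangentSpace 𝓘(ℝ, E n) q)] in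
theorem H30_gradInner_sum {φ : M → N} {ι : Type*} (s : Finset ι) (w : M → ℝ) (ψ : ι → M → ℝ)
    (hψ : ∀ i ∈ s, MDifferentiable 𝓘(ℝ, E m) 𝓘(ℝ, ℝ) (ψ i)) (q : M) :
    gradInner m n φ w (fun z => ∑ i ∈ s, ψ i z) q = ∑ i ∈ s, gradInner m n φ w (ψ i) q := by
  have hd : ∀ j, diffM m (fun z => ∑ i ∈ s, ψ i z) q j = ∑ i ∈ s, diffM m (ψ i) q j := fun j =>
    H30_diffM_sum s ψ hψ q j
  simp only [gradInner, hd, Finset.mul_sum]
  calc ∑ x, ∑ y, ∑ i ∈ s, (gram m n φ q)⁻¹ x y * diffM m w q x * diffM m (ψ i) q y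
      = ∑ x, ∑ i ∈ s, ∑ y, (gram m n φ q)⁻¹ x y * diffM m w q x * diffM m (ψ i) q y :=
        Finset.sum_congr rfl fun x _ => Finset.sum_comm
    _ = _ := Finset.sum_comm

theorem weak_ineq {φ : M → N} (h : IsImm m n φ) {μ : Measure M}
    (hμ : IsRiemVolume m n φ μ) {w b : M → ℝ}
    (hw : ContMDiff 𝓘(ℝ, E m) 𝓘(ℝ, ℝ) 2 w) (hb : Measurable b) {C : ℝ} (hbC : ∀ p, |b p| ≤ C)
    (hle : ∀ (p : M) (x : E m), x ∈ (chartAt (E m) p).target →
      laplace (metricM m n φ p) (w ∘ (chartAt (E m) p).symm) x ≤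
        - b ((chartAt (E m) p).symm x))
    {ψ : M → ℝ} (hψ : ContMDiff 𝓘(ℝ, E m) 𝓘(ℝ, ℝ) 1 ψ) (hψc : HasCompactSupport ψ)
    (hψ0 : ∀ p, 0 ≤ ψ p) :
    ∫ p, b p * ψ p ∂μ ≤ dirichlet m n φ μ w ψ := by
  classical
  have : LocallyCompactSpace M := Manifold.locallyCompact_of_finiteDimensional 𝓘(ℝ, E m)
  have : SigmaCompactSpace M := inferInstance
  obtain ⟨f, hf⟩ := SmoothPartitionOfUnity.exists_isSubordinate_chartAt_source 𝓘(ℝ, E m) M
  -- finitely many members meet the support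
  have hfin : {i | (Function.support (f i) ∩ tsupport ψ).Nonempty}.Finite :=
    f.locallyFinite.finite_nonempty_inter_compact hψc.isCompact
  set s := hfin.toFinset with hs
  have hsum : ∀ q, ψ q = ∑ i ∈ s, f i q * ψ q := by
    intro q
    by_cases hq : q ∈ tsupport ψ
    · have h1 : ∑ i ∈ s, f i q = 1 := by
        have h2 := f.sum_eq_one (mem_univ q)
        rw [finsum_eq_sum_of_support_subset _ (s := s)] at h2
        · exact h2
        · intro i hi
          rw [hs, Finite.coe_toFinset]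
          exact ⟨q, hi, hq⟩
      rw [← Finset.sum_mul, h1, one_mul]
    · rw [image_eq_zero_of_notMem_tsupport hq]; simp
  set ψ' : M → M → ℝ := fun i q => f i q * ψ q with hψ'
  have hψ'1 : ∀ i, ContMDiff 𝓘(ℝ, E m) 𝓘(ℝ, ℝ) 1 (ψ' i) := fun i =>
    (((f i).contMDiff).of_le (by norm_num)).mul hψ
  have hψ'2 : ∀ i, tsupport (ψ' i) ⊆ (chartAt (E m) i).source := fun i =>
    (closure_mono (Function.support_mul_subset_left _ _)).trans (hf i)
  have hψ'3 : ∀ i, HasCompactSupport (ψ' i) := fun i => hψc.mul_left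
  have hψ'4 : ∀ i q, 0 ≤ ψ' i q := fun i q => mul_nonneg (f.nonneg i q) (hψ0 q)
  have hloc := fun i => H30_weak_local h hμ hw hb hbC hle i (hψ'1 i) (hψ'3 i) (hψ'2 i) (hψ'4 i)
  have hψeq : ψ = fun q => ∑ i ∈ s, ψ' i q := funext hsum
  have e1 : ∫ p, b p * ψ p ∂μ = ∑ i ∈ s, ∫ p, b p * ψ' i p ∂μ := by
    rw [← integral_finsetSum _ fun i _ => (hloc i).1]
    refine integral_congr_ae (ae_of_all _ fun q => ?_)
    simp only
    rw [hsum q, Finset.mul_sum]
  have e2 : dirichlet m n φ μ w ψ = ∑ i ∈ s, ∫ p, gradInner m n φ w (ψ' i) p ∂μ := by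
    rw [← integral_finsetSum _ fun i _ => (hloc i).2.1]
    unfold dirichlet
    refine integral_congr_ae (ae_of_all _ fun q => ?_)
    simp only
    conv_lhs => rw [hψeq]
    exact H30_gradInner_sum s w ψ' (fun i _ => (hψ'1 i).mdifferentiable (by norm_num)) q
  rw [e1, e2]
  exact Finset.sum_le_sum fun i _ => (hloc i).2.2

end D

end Pool.Agent.helper43.MS
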