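import Pool.Agent.helper58.MS.M1b

set_option autoImplicit false
set_option linter.unusedSectionVars false

/-!
# WS project (MP_c072aa_co), module M9c: the field with `p^3` elements
-/

namespace Pool.Agent.helper75.MS

open Finset

section
variable {p : ℕ} [Fact p.Prime] {E : Type} [Field E] [Fintype E] [DecidableEq E]
    [Algebra (ZMod p) E]

theorem M9c_frob_inj (i : ℕ) {x y : E} (h : x ^ p ^ i = y ^ p ^ i) : x = y := by
  have : CharP E p := charP_of_injective_algebraMap (algebraMap (ZMod p) E).injective p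
  exact iterateFrobenius_inj E p i (by simpa [iterateFrobenius_def] using h)

theorem M9c_add_pow (i : ℕ) (x y : E) : (x + y) ^ p ^ i = x ^ p ^ i + y ^ p ^ i := by
  have : CharP E p := charP_of_injective_algebraMap (algebraMap (ZMod p) E).injective p
  exact add_pow_char_pow x y p i

theorem M9c_sub_pow (i : ℕ) (x y : E) : (x - y) ^ p ^ i = x ^ p ^ i - y ^ p ^ i := by
  have : CharP E p := charP_of_injective_algebraMap (algebraMap (ZMod p) E).injective p
  exact sub_pow_char_pow x y i

/-- two exponents that agree modulo `q - 1` define the same power map -/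
theorem M9c_pow_congr {n d e : ℕ} (hq : Fintype.card E = p ^ n) (hd : d ≠ 0) (he : e ≠ 0)
    (h : d ≡ e [MOD p ^ n - 1]) (x : E) : x ^ d = x ^ e := by
  by_cases hx : x = 0
  · rw [hx, zero_pow hd, zero_pow he]
  · have h1 : x ^ (p ^ n - 1) = 1 := by
      rw [← hq]
      exact FiniteField.pow_card_sub_one_eq_one x hx
    exact pow_eq_pow_of_modEq h h1

theorem M9c_w_congr {n d e i : ℕ} (hq : Fintype.card E = p ^ n) (hd : d ≠ 0) (he : e ≠ 0)
    (h : d ≡ e * p ^ i [MOD p ^ n - 1]) (a : E) : w p d a = w p e a := by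
  have hp0 : p ^ i ≠ 0 := pow_ne_zero _ (Nat.Prime.pos Fact.out).ne'
  have hT : ∀ x : E, T p d a x = T p e a x := by
    intro x
    unfold T
    rw [M9c_pow_congr hq hd (mul_ne_zero he hp0) h, pow_mul, map_sub, M1b_trace_pow, ← map_sub]
  unfold w cnt
  simp only [hT]

theorem M9c_V_congr {n d e i : ℕ} (hq : Fintype.card E = p ^ n) (hd : d ≠ 0) (he : e ≠ 0)
    (h : d ≡ e * p ^ i [MOD p ^ n - 1]) : V d (1 : E) = V e (1 : E) := by
  have hp0 : p ^ i ≠ 0 := pow_ne_zero _ (Nat.Prime.pos Fact.out).ne'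
  unfold V
  congr 1
  apply Finset.filter_congr
  intro t _
  rw [one_pow, one_pow, one_mul, one_mul, M9c_pow_congr hq hd (mul_ne_zero he hp0) h,
    M9c_pow_congr hq hd (mul_ne_zero he hp0) h, pow_mul, pow_mul, ← M9c_add_pow]
  constructor
  · intro h1
    apply M9c_frob_inj (p := p) i
    rw [h1, one_pow]
  · intro h1
    rw [h1, one_pow]

/-- Chevalley-Warning for a quadratic form in three variables -/
theorem M9c_chev (hq : Fintype.card E = p ^ 3) (Q : E → ZMod p)
    (B : E →ₗ[ZMod p] E →ₗ[ZMod p] ZMod p) (hB : ∀ u, Q u = B u u) :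
    p ∣ (univ.filter fun u : E => Q u = 0).card := by
  have hfr : Module.finrank (ZMod p) E = 3 := by
    have h1 := Module.card_eq_pow_finrank (K := ZMod p) (V := E)
    rw [ZMod.card, hq] at h1
    exact (Nat.pow_right_injective (Nat.Prime.two_le Fact.out) h1).symm
  have b : Module.Basis (Fin 3) (ZMod p) E := Module.finBasisOfFinrankEq _ _ hfr
  let f : MvPolynomial (Fin 3) (ZMod p) :=
    ∑ i, ∑ j, MvPolynomial.C (B (b i) (b j)) * (MvPolynomial.X i * MvPolynomial.X j)
  have hf : f.totalDegree < Fintype.card (Fin 3) := by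
    have h2 : f.totalDegree ≤ 2 := by
      apply MvPolynomial.totalDegree_finsetSum_le
      intro i _
      apply MvPolynomial.totalDegree_finsetSum_le
      intro j _
      refine (MvPolynomial.totalDegree_mul _ _).trans ?_
      rw [MvPolynomial.totalDegree_C, zero_add]
      refine (MvPolynomial.totalDegree_mul _ _).trans ?_
      rw [MvPolynomial.totalDegree_X, MvPolynomial.totalDegree_X]
    rw [Fintype.card_fin]
    omega
  have h1 := char_dvd_card_solutions p hf
  have h2 : Fintype.card { x : Fin 3 → ZMod p // MvPolynomial.eval x f = 0 } =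
      (univ.filter fun u : E => Q u = 0).card := by
    rw [Fintype.card_subtype]
    apply Finset.card_bij (fun x _ => b.equivFun.symm x)
    · intro x hx
      rw [Finset.mem_filter] at hx ⊢
      refine ⟨Finset.mem_univ _, ?_⟩
      rw [← hx.2, hB, Module.Basis.equivFun_symm_apply]
      simp only [f, map_sum, map_mul, MvPolynomial.eval_C, MvPolynomial.eval_X, map_smul,
        LinearMap.sum_apply, LinearMap.smul_apply, smul_eq_mul]
      rw [Finset.sum_comm]
      apply Finset.sum_congr rfl
      intro i _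
      rw [Finset.mul_sum]
      apply Finset.sum_congr rfl
      intro j _
      ring
    · intro x _ y _ hxy
      exact b.equivFun.symm.injective hxy
    · intro u hu
      refine ⟨b.equivFun u, ?_, by simp⟩
      rw [Finset.mem_filter] at hu ⊢
      refine ⟨Finset.mem_univ _, ?_⟩
      have h3 : u = ∑ i, b.equivFun u i • b i := (b.sum_equivFun u).symm
      rw [← hu.2, hB]
      conv_rhs => rw [h3]
      simp only [f, map_sum, map_mul, MvPolynomial.eval_C, MvPolynomial.eval_X, map_smul,
        LinearMap.sum_apply, LinearMap.smul_apply, smul_eq_mul]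
      rw [Finset.sum_comm]
      apply Finset.sum_congr rfl
      intro i _
      rw [Finset.mul_sum]
      apply Finset.sum_congr rfl
      intro j _
      ring
  rw [← h2]
  exact h1

/-- a nonresidue of `ZMod p` is not a square in an extension of odd degree -/
theorem M9c_nonsq (hp : 3 < p) (hq : Fintype.card E = p ^ 3) :
    ∃ g : ZMod p, g ≠ 0 ∧ ¬ IsSquare (algebraMap (ZMod p) E g) := by
  have hfr : Module.finrank (ZMod p) E = 3 := by
    have h1 := Module.card_eq_pow_finrank (K := ZMod p) (V := E)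
    rw [ZMod.card, hq] at h1
    exact (Nat.pow_right_injective (Nat.Prime.two_le Fact.out) h1).symm
  obtain ⟨g, hg⟩ := FiniteField.exists_nonsquare (F := ZMod p) (by
    rw [ZMod.ringChar_zmod_n]; omega)
  have hg0 : g ≠ 0 := by
    rintro rfl
    exact hg (IsSquare.zero)
  refine ⟨g, hg0, ?_⟩
  rintro ⟨z, hz⟩
  apply hg
  have h1 := congrArg (Algebra.norm (ZMod p)) hz
  rw [Algebra.norm_algebraMap, hfr, map_mul] at h1
  refine ⟨Algebra.norm (ZMod p) z * g⁻¹, ?_⟩
  field_simp
  linear_combination h1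

/-- counting zeros of `f` through `y = c u^k`, `gcd (k, q - 1) = 2` -/
theorem M9c_count (hp : 3 < p) (hq : Fintype.card E = p ^ 3) {k : ℕ}
    (hk : Nat.gcd k (p ^ 3 - 1) = 2) (f Q : E → ZMod p)
    (hf : ∀ (c : ZMod p) (y : E), f (algebraMap (ZMod p) E c * y) = c * f y)
    (hQ : ∀ u, f (u ^ k) = Q u) :
    (univ.filter fun y : E => f y = 0).card = (univ.filter fun u : E => Q u = 0).card := by
  classical
  obtain ⟨g, hg0, hg⟩ := M9c_nonsq (p := p) (E := E) hp hq
  have h4 := card_sub_one (p := p) (n := 3) hp (by norm_num)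
  have hk0 : k ≠ 0 := by
    rintro rfl
    rw [Nat.gcd_zero_left] at hk
    omega
  have hf0 : f 0 = 0 := by
    have := hf 0 0
    simpa using this
  have hQ0 : Q 0 = 0 := by
    rw [← hQ, zero_pow hk0, hf0]
  set G : E := algebraMap (ZMod p) E g with hG
  have hG0 : G ≠ 0 := by
    rw [hG, Ne, map_eq_zero]
    exact hg0
  set S := (univ.filter fun y : E => y ≠ 0 ∧ f y = 0) with hS
  set A := (univ.filter fun u : E => u ≠ 0 ∧ Q u = 0) with hA
  have e1 : (univ.filter fun y : E => f y = 0).card = S.card + 1 := by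
    have : (univ.filter fun y : E => f y = 0) = insert 0 S := by
      ext y
      simp only [hS, Finset.mem_filter, Finset.mem_univ, true_and, Finset.mem_insert]
      constructor
      · intro h
        by_cases hy : y = 0
        · exact Or.inl hy
        · exact Or.inr ⟨hy, h⟩
      · rintro (h | h)
        · rw [h, hf0]
        · exact h.2
    rw [this, Finset.card_insert_of_notMem]
    simp [hS]
  have e2 : (univ.filter fun y : E => Q y = 0).card = A.card + 1 := by
    have : (univ.filter fun y : E => Q y = 0) = insert 0 A := by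
      ext y
      simp only [hA, Finset.mem_filter, Finset.mem_univ, true_and, Finset.mem_insert]
      constructor
      · intro h
        by_cases hy : y = 0
        · exact Or.inl hy
        · exact Or.inr ⟨hy, h⟩
      · rintro (h | h)
        · rw [h, hQ0]
        · exact h.2
    rw [this, Finset.card_insert_of_notMem]
    simp [hA]
  have e3 : (S.filter fun y => IsSquare y).card = (S.filter fun y => ¬ IsSquare y).card := by
    apply Finset.card_bij (fun y _ => G * y)
    · intro y hy
      simp only [hS, Finset.mem_filter, Finset.mem_univ, true_and] at hy ⊢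
      refine ⟨⟨mul_ne_zero hG0 hy.1.1, by rw [hG, hf, hy.1.2, mul_zero]⟩, ?_⟩
      intro h
      apply hg
      have : G = G * y / y := by field_simp [hy.1.1]
      rw [this]
      exact h.div hy.2
    · intro x _ y _ hxy
      exact mul_left_cancel₀ hG0 hxy
    · intro y hy
      simp only [hS, Finset.mem_filter, Finset.mem_univ, true_and] at hy
      refine ⟨G⁻¹ * y, ?_, by field_simp⟩
      simp only [hS, Finset.mem_filter, Finset.mem_univ, true_and]
      have hGi : G⁻¹ = algebraMap (ZMod p) E g⁻¹ := by rw [hG, map_inv₀]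
      refine ⟨⟨mul_ne_zero (inv_ne_zero hG0) hy.1.1, by rw [hGi, hf, hy.1.2, mul_zero]⟩, ?_⟩
      by_contra h
      -- the product of two nonsquares is a square
      have hchar : ringChar E ≠ 2 := by
        have : CharP E p := charP_of_injective_algebraMap (algebraMap (ZMod p) E).injective p
        rw [ringChar.eq E p]
        omega
      have h1 := (quadraticChar_neg_one_iff_not_isSquare (F := E)).2 hg
      have h2 := (quadraticChar_neg_one_iff_not_isSquare (F := E)).2 h
      have h3 := (quadraticChar_neg_one_iff_not_isSquare (F := E)).2 hy.2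
      have h5 : y = G * (G⁻¹ * y) := by field_simp
      rw [h5, map_mul, hG, h1, ← hG, h2] at h3
      norm_num at h3
  have e4 : A.card = (S.filter fun y => IsSquare y).card * 2 := by
    rw [Finset.card_eq_sum_card_fiberwise (f := fun u => u ^ k)
      (t := S.filter fun y => IsSquare y)]
    · rw [Finset.sum_const_nat]
      intro y hy
      simp only [hS, Finset.mem_filter, Finset.mem_univ, true_and] at hy
      obtain ⟨⟨hy0, hfy⟩, v, hv⟩ := hy
      obtain ⟨m, hm⟩ := Nat.exists_mul_mod_eq_gcd (n := k) (k := p ^ 3 - 1) (by omega)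
      have hm2 : k * m ≡ 2 [MOD p ^ 3 - 1] := by
        rw [hk] at hm
        unfold Nat.ModEq
        rw [hm.2, Nat.mod_eq_of_lt (by omega)]
      have hv0 : v ≠ 0 := by
        rintro rfl
        apply hy0
        rw [hv, mul_zero]
      have hv1 : v ^ (p ^ 3 - 1) = 1 := by
        rw [← hq]
        exact FiniteField.pow_card_sub_one_eq_one v hv0
      have hu : (v ^ m) ^ k = y := by
        rw [← pow_mul, mul_comm, pow_eq_pow_of_modEq hm2 hv1, hv, sq]
      have hchar : (2 : E) ≠ 0 := by
        have : CharP E p := charP_of_injective_algebraMap (algebraMap (ZMod p) E).injective p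
        intro h
        have h2 : ((2 : ℕ) : E) = 0 := by exact_mod_cast h
        rw [CharP.cast_eq_zero_iff E p] at h2
        have := Nat.le_of_dvd (by norm_num) h2
        omega
      have hu0 : v ^ m ≠ 0 := pow_ne_zero _ hv0
      have hfib : (A.filter fun u => u ^ k = y) = {v ^ m, -(v ^ m)} := by
        ext u
        simp only [hA, Finset.mem_filter, Finset.mem_univ, true_and, Finset.mem_insert,
          Finset.mem_singleton]
        have hev : Even k := by
          have : 2 ∣ k := by
            rw [← hk]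
            exact Nat.gcd_dvd_left _ _
          exact (even_iff_two_dvd).2 this
        constructor
        · rintro ⟨⟨hu1, -⟩, hu2⟩
          have h1 : (u / v ^ m) ^ k = 1 := by
            rw [div_pow, hu2, hu, div_self hy0]
          have h2 : (u / v ^ m) ^ (p ^ 3 - 1) = 1 := by
            rw [← hq]
            exact FiniteField.pow_card_sub_one_eq_one _ (div_ne_zero hu1 hu0)
          have h3 : (u / v ^ m) ^ (Nat.gcd k (p ^ 3 - 1)) = 1 := pow_gcd_eq_one.2 ⟨h1, h2⟩
          rw [hk, sq_eq_one_iff] at h3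
          rcases h3 with h3 | h3
          · left
            rwa [div_eq_one_iff_eq hu0] at h3
          · right
            rw [div_eq_iff hu0] at h3
            rw [h3]
            ring
        · rintro (h | h)
          · rw [h]
            exact ⟨⟨hu0, by rw [← hQ, hu, hfy]⟩, hu⟩
          · rw [h]
            exact ⟨⟨neg_ne_zero.2 hu0, by rw [← hQ, hev.neg_pow, hu, hfy]⟩, by
              rw [hev.neg_pow, hu]⟩
      rw [hfib, Finset.card_pair]
      intro h
      have h1 : (2 : E) * v ^ m = 0 := by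
        linear_combination h
      exact (mul_ne_zero hchar hu0) h1
    · intro u hu
      simp only [hA, Finset.coe_filter, Finset.mem_univ, true_and, Set.mem_ofPred_eq] at hu
      simp only [hS, Finset.coe_filter, Finset.mem_filter, Finset.mem_univ, true_and,
        Set.mem_ofPred_eq]
      refine ⟨⟨pow_ne_zero _ hu.1, by rw [hQ, hu.2]⟩, ?_⟩
      have h2k : 2 ∣ k := by
        rw [← hk]
        exact Nat.gcd_dvd_left _ _
      obtain ⟨l, hl⟩ := h2k
      refine ⟨u ^ l, ?_⟩
      rw [hl, ← pow_add]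
      congr 1
      ring
  have e5 := Finset.card_filter_add_card_filter_not (s := S) (fun y => IsSquare y)
  omega

/-- the bilinear form `(u, v) ↦ Tr (a u^(p^i) v - b u^(p^j) v)` -/
noncomputable def M9c_B (a b : E) (i j : ℕ) : E →ₗ[ZMod p] E →ₗ[ZMod p] ZMod p :=
  LinearMap.mk₂ (ZMod p) (fun u v => Algebra.trace (ZMod p) E (a * u ^ p ^ i * v - b * u ^ p ^ j * v))
    (by
      intro u u' v
      rw [← map_add, M9c_add_pow, M9c_add_pow]
      congr 1
      ring)
    (by
      intro c u v
      have h1 : ∀ l : ℕ, (algebraMap (ZMod p) E c) ^ p ^ l = algebraMap (ZMod p) E c := by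
        intro l
        rw [← map_pow, ZMod.pow_card_pow]
      rw [← map_smul, Algebra.smul_def, Algebra.smul_def, mul_pow, mul_pow, h1, h1]
      congr 1
      ring)
    (by
      intro u v v'
      rw [← map_add]
      congr 1
      ring)
    (by
      intro c u v
      rw [← map_smul, Algebra.smul_def, Algebra.smul_def]
      congr 1
      ring)

theorem M9c_gcd1 (hp : 3 < p) : Nat.gcd 2 (p ^ 3 - 1) = 2 := by
  have hpo : Odd p := (Fact.out : p.Prime).odd_of_ne_two (by omega)
  have h1 : Odd (p ^ 3) := hpo.pow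
  obtain ⟨k, hk⟩ := h1
  have h2 : 2 ∣ p ^ 3 - 1 := ⟨k, by omega⟩
  exact Nat.gcd_eq_left h2

theorem M9c_gcd2 (hp : 3 < p) : Nat.gcd (p + 1) (p ^ 3 - 1) = 2 := by
  have hpo : Odd p := (Fact.out : p.Prime).odd_of_ne_two (by omega)
  obtain ⟨l, hl⟩ := hpo
  have h1 : Odd (p ^ 3) := Odd.pow ⟨l, hl⟩
  obtain ⟨k, hk⟩ := h1
  apply Nat.dvd_antisymm
  · have h3 : Nat.gcd (p + 1) (p ^ 3 - 1) ∣ p ^ 3 + 1 := by
      refine (Nat.gcd_dvd_left _ _).trans ?_
      refine ⟨p ^ 2 - p + 1, ?_⟩
      have h4 : p ≤ p ^ 2 := Nat.le_self_pow (by norm_num) p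
      zify [h4]
      ring
    have h5 : Nat.gcd (p + 1) (p ^ 3 - 1) ∣ (p ^ 3 + 1) - (p ^ 3 - 1) :=
      Nat.dvd_sub h3 (Nat.gcd_dvd_right _ _)
    have h6 : (p ^ 3 + 1) - (p ^ 3 - 1) = 2 := by
      have := pow_pos (show 0 < p by omega) 3
      omega
    rwa [h6] at h5
  · apply Nat.dvd_gcd
    · exact ⟨l + 1, by omega⟩
    · exact ⟨k, by omega⟩

/-- `p` divides the number of zeros of the trace form -/
theorem M9c_dvd {e : ℕ} (hp : 3 < p) (hq : Fintype.card E = p ^ 3)
    (he1 : e ≡ 1 [MOD p - 1])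
    (he : e = (p ^ 2 + 1) / 2 ∨ e = p ^ 2 - p + 1) (x : E) :
    p ∣ cnt p e x 0 := by
  have hpo : Odd p := (Fact.out : p.Prime).odd_of_ne_two (by omega)
  unfold cnt
  rcases he with he | he
  · have h2e : 2 * e = p ^ 2 + 1 := by
      have h1 : Odd (p ^ 2) := hpo.pow
      obtain ⟨k, hk⟩ := h1
      omega
    rw [M9c_count hp hq (M9c_gcd1 hp) (fun y => T p e x y) (fun u => T p e x (u ^ 2))
      (fun c y => M1b_T_smul hp he1 x y c) (fun u => rfl)]
    apply M9c_chev hq _ (M9c_B x 1 0 2)
    intro u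
    unfold T M9c_B
    rw [LinearMap.mk₂_apply, ← pow_mul, h2e]
    congr 1
    ring
  · have h2e : (p + 1) * e = p ^ 3 + 1 := by
      have h4 : p ≤ p ^ 2 := Nat.le_self_pow (by norm_num) p
      rw [he]
      zify [h4]
      ring
    rw [M9c_count hp hq (M9c_gcd2 hp) (fun y => T p e x y) (fun u => T p e x (u ^ (p + 1)))
      (fun c y => M1b_T_smul hp he1 x y c) (fun u => rfl)]
    apply M9c_chev hq _ (M9c_B x 1 1 0)
    intro u
    unfold T M9c_B
    rw [LinearMap.mk₂_apply, ← pow_mul, h2e, pow_add u (p ^ 3) 1, ← hq, FiniteField.pow_card]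
    congr 1
    ring

/-- the fixed points of the Frobenius -/
theorem M9c_fix : (univ.filter fun t : E => t ^ p = t).card ≤ p := by
  classical
  have hp1 : 1 < p := (Fact.out : p.Prime).one_lt
  have h1 : (univ.filter fun t : E => t ^ p = t) ⊆
      ((Polynomial.X ^ p - Polynomial.X : Polynomial E).roots).toFinset := by
    intro t ht
    rw [Finset.mem_filter] at ht
    rw [Multiset.mem_toFinset, Polynomial.mem_roots (FiniteField.X_pow_card_sub_X_ne_zero E hp1)]
    simp [ht.2]
  refine (Finset.card_le_card h1).trans ?_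
  refine (Multiset.toFinset_card_le _).trans ?_
  refine (Polynomial.card_roots' _).trans ?_
  rw [FiniteField.X_pow_card_sub_X_natDegree_eq E hp1]

theorem M9c_V2a (hp : 3 < p) (t : E)
    (h : t ^ (p ^ 2 - p + 1) + (1 - t) ^ (p ^ 2 - p + 1) = 1) : t ^ p = t := by
  have h4 : p ≤ p ^ 2 := Nat.le_self_pow (by norm_num) p
  by_cases ht : t = 0
  · rw [ht, zero_pow (by omega)]
  by_cases ht1 : 1 - t = 0
  · have : t = 1 := by linear_combination -ht1
    rw [this, one_pow]
  have hp1 : ∀ s : E, s ≠ 0 → s ^ (p ^ 2 - p + 1) * s ^ p = s * s ^ p ^ 2 := by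
    intro s _
    rw [← pow_add, ← pow_succ']
    congr 1
    omega
  have h1 := hp1 t ht
  have h2 := hp1 (1 - t) ht1
  have h3 : (1 - t) ^ p = 1 - t ^ p := by
    have := M9c_sub_pow (p := p) 1 1 t
    simpa using this
  have h5 : (1 - t) ^ p ^ 2 = 1 - t ^ p ^ 2 := by
    have := M9c_sub_pow (p := p) 2 1 t
    simpa using this
  rw [h3, h5] at h2
  set u := t with hu
  set v := u ^ p with hv
  set s := u ^ p ^ 2 with hs
  set P := u ^ (p ^ 2 - p + 1) with hP
  set R := (1 - u) ^ (p ^ 2 - p + 1) with hR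
  have h6 : (v - u) * (v - s) = 0 := by
    have : P * v * (1 - v) + R * (1 - v) * v = v * (1 - v) := by
      linear_combination v * (1 - v) * h
    rw [h1, h2] at this
    linear_combination this
  rcases mul_eq_zero.1 h6 with h7 | h7
  · linear_combination h7
  · have h8 : (v - u) ^ p = 0 := by
      have h9 := M9c_sub_pow (p := p) 1 v u
      rw [pow_one] at h9
      rw [h9]
      have : v ^ p = s := by
        rw [hv, hs, ← pow_mul, sq]
      rw [this, ← hv]
      linear_combination -h7
    have h9 := pow_eq_zero_iff (by omega : p ≠ 0) |>.1 h8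
    linear_combination h9

theorem M9c_V1a (hp : 3 < p) (hq : Fintype.card E = p ^ 3) (t : E)
    (h : t ^ ((p ^ 2 + 1) / 2) + (1 - t) ^ ((p ^ 2 + 1) / 2) = 1) : t ^ p = t := by
  have hpo : Odd p := (Fact.out : p.Prime).odd_of_ne_two (by omega)
  have h4 : p ≤ p ^ 2 := Nat.le_self_pow (by norm_num) p
  have h41 := card_sub_one (p := p) (n := 3) hp (by norm_num)
  have hmod : (p ^ 2 + 1) / 2 * (p ^ 2 - p + 1) ≡ p ^ 2 [MOD p ^ 3 - 1] := by
    obtain ⟨l, hl⟩ := hpo
    have h5 : (p ^ 2 + 1) / 2 = 2 * l ^ 2 + 2 * l + 1 := by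
      rw [hl]
      have : (2 * l + 1) ^ 2 + 1 = 2 * (2 * l ^ 2 + 2 * l + 1) := by ring
      rw [this, Nat.mul_div_cancel_left _ (by norm_num)]
    have h6 : p ^ 2 - p + 1 = 4 * l ^ 2 + 2 * l + 1 := by
      rw [hl]
      have : (2 * l + 1) ^ 2 = (4 * l ^ 2 + 2 * l) + (2 * l + 1) := by ring
      rw [this, Nat.add_sub_cancel]
    rw [h5, h6]
    symm
    rw [Nat.modEq_iff_dvd]
    refine ⟨l, ?_⟩
    have h7 : 1 ≤ p ^ 3 := by omega
    push_cast [h7]
    rw [hl]
    push_cast
    ring
  set e1 := (p ^ 2 + 1) / 2 with he1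
  set e2 := p ^ 2 - p + 1 with he2
  have hne : e1 * e2 ≠ 0 := by
    have : 1 ≤ e1 := by omega
    have : 1 ≤ e2 := by omega
    positivity
  have hpow : ∀ s : E, (s ^ e1) ^ e2 = s ^ p ^ 2 := by
    intro s
    rw [← pow_mul]
    exact M9c_pow_congr hq hne (by positivity) hmod s
  have h1 : (t ^ e1) ^ e2 + (1 - t ^ e1) ^ e2 = 1 := by
    have h2 : 1 - t ^ e1 = (1 - t) ^ e1 := by linear_combination -h
    rw [h2, hpow, hpow]
    have := M9c_sub_pow (p := p) 2 1 t
    rw [this, one_pow]
    ring
  have h2 := M9c_V2a hp (t ^ e1) h1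
  have h3 : (t ^ p) ^ p ^ 2 = t ^ p ^ 2 := by
    have h5 : (t ^ p) ^ e1 = t ^ e1 := by
      rw [← pow_mul, mul_comm, pow_mul, h2]
    rw [← hpow (t ^ p), h5, hpow]
  exact M9c_frob_inj (p := p) 2 h3

theorem M9c_V {e : ℕ} (hp : 3 < p) (hq : Fintype.card E = p ^ 3)
    (he : e = (p ^ 2 + 1) / 2 ∨ e = p ^ 2 - p + 1) : V e (1 : E) ≤ p := by
  refine le_trans ?_ (M9c_fix (p := p) (E := E))
  unfold V
  apply Finset.card_le_card
  intro t ht
  rw [Finset.mem_filter] at ht ⊢
  refine ⟨Finset.mem_univ _, ?_⟩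
  have h1 := ht.2
  rw [one_pow, one_mul] at h1
  rcases he with rfl | rfl
  · exact M9c_V1a hp hq t h1
  · exact M9c_V2a hp t h1

/-- M9c -/
theorem odd_count {d i e : ℕ} (hp : 3 < p) (hq : Fintype.card E = p ^ 3)
    (hd : Nat.Coprime d (p ^ 3 - 1)) (hd1 : d ≡ 1 [MOD p - 1])
    (he : e = (p ^ 2 + 1) / 2 ∨ e = p ^ 2 - p + 1) (hde : d ≡ e * p ^ i [MOD p ^ 3 - 1]) :
    (univ.filter fun x : E => Odd (w p d x)).card = p ^ 2 := by
  have hpo : Odd p := (Fact.out : p.Prime).odd_of_ne_two (by omega)
  have h4 : p ≤ p ^ 2 := Nat.le_self_pow (by norm_num) p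
  have he0 : e ≠ 0 := by
    rcases he with he | he <;> omega
  have hd0 : d ≠ 0 := M1b_d_ne hp hd1
  have he1 : e ≡ 1 [MOD p - 1] := by
    have h1 : d ≡ e * p ^ i [MOD p - 1] := hde.of_dvd (by
      have := Nat.sub_dvd_pow_sub_pow p 1 3
      simpa using this)
    have h2 : e * p ^ i ≡ e * 1 ^ i [MOD p - 1] := by
      apply Nat.ModEq.mul_left
      apply Nat.ModEq.pow
      symm
      rw [Nat.modEq_iff_dvd' (by omega)]
    rw [one_pow, mul_one] at h2
    exact (h2.symm.trans h1.symm).trans hd1
  have hw : ∀ x : E, w p d x = w p e x := fun x => M9c_w_congr hq hd0 he0 hde x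
  have hp2 : (0 : ℤ) < (p : ℤ) := by exact_mod_cast (show 0 < p by omega)
  -- `cnt 0 + (p - 1) cnt 1 = p ^ 3`
  have htot : ∀ x : E, (cnt p e x 0 : ℤ) + ((p : ℤ) - 1) * cnt p e x 1 = (p : ℤ) ^ 3 := by
    intro x
    have h1 : ∑ c : ZMod p, cnt p e x c = p ^ 3 := by
      rw [← hq, ← Finset.card_univ (α := E)]
      unfold cnt
      rw [← Finset.card_eq_sum_card_fiberwise]
      intro y _
      simp
    rw [← Finset.add_sum_erase _ _ (Finset.mem_univ (0 : ZMod p)),
      Finset.sum_congr rfl (g := fun _ => cnt p e x 1)] at h1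
    · rw [Finset.sum_const, Finset.card_erase_of_mem (Finset.mem_univ _), Finset.card_univ,
        ZMod.card, smul_eq_mul] at h1
      have h2 : 1 ≤ p := by omega
      have h3 : ((cnt p e x 0 + (p - 1) * cnt p e x 1 : ℕ) : ℤ) = ((p ^ 3 : ℕ) : ℤ) := by
        rw [h1]
      push_cast [h2] at h3
      exact h3
    · intro c hc
      exact M1b_cnt hp he1 x c (Finset.ne_of_mem_erase hc)
  have hm : ∀ x : E, ∃ m : ℤ, w p e x = (p : ℤ) ^ 2 * m ∧ -1 ≤ m := by
    intro x
    obtain ⟨k, hk⟩ := M9c_dvd hp hq he1 he x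
    have h1 := htot x
    have h2 : ((p : ℤ) - 1) * w p e x = (p : ℤ) ^ 2 * (k - p) := by
      unfold w
      rw [hk] at h1 ⊢
      push_cast at h1 ⊢
      linear_combination (-1 : ℤ) * h1
    have h3 : IsCoprime ((p : ℤ) ^ 2) ((p : ℤ) - 1) := by
      apply IsCoprime.pow_left
      exact ⟨1, -1, by ring⟩
    have h5 : (p : ℤ) ^ 2 ∣ w p e x := h3.dvd_of_dvd_mul_left ⟨k - p, h2⟩
    obtain ⟨m, hm⟩ := h5
    refine ⟨m, hm, ?_⟩
    rw [hm] at h2
    have h6 : ((p : ℤ) - 1) * m = k - p := by
      have : (p : ℤ) ^ 2 * (((p : ℤ) - 1) * m) = (p : ℤ) ^ 2 * (k - p) := by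
        linear_combination h2
      exact mul_left_cancel₀ (by positivity) this
    have h7 : 1 ≤ k := by
      have h8 : 0 < cnt p e x 0 := by
        unfold cnt
        apply Finset.card_pos.2
        refine ⟨0, ?_⟩
        rw [Finset.mem_filter]
        refine ⟨Finset.mem_univ _, ?_⟩
        unfold T
        rw [mul_zero, zero_pow he0, sub_zero, map_zero]
      rw [hk] at h8
      rcases Nat.eq_zero_or_pos k with h9 | h9
      · rw [h9, mul_zero] at h8
        omega
      · exact h9
    by_contra h8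
    push Not at h8
    have h9 : m ≤ -2 := by omega
    have h10 : (3 : ℤ) < p := by exact_mod_cast hp
    have h11 : (1 : ℤ) ≤ k := by exact_mod_cast h7
    nlinarith
  choose m hm1 hm2 using hm
  have s1 : ∑ x : E, m x = p := by
    have h1 := w_sum (K := E) (d := d) hp hq (by norm_num) hd hd1
    simp only [hw, hm1] at h1
    rw [← Finset.mul_sum] at h1
    have : (p : ℤ) ^ 2 * ∑ x : E, m x = (p : ℤ) ^ 2 * p := by
      rw [h1]; ring
    exact mul_left_cancel₀ (by positivity) this
  have s2 : ∑ x : E, m x ^ 2 = (p : ℤ) ^ 2 := by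
    have h1 := w_sq (K := E) (d := d) hp hq (by norm_num) hd hd1 1 one_ne_zero
    simp only [hw, hm1, one_mul, if_true] at h1
    have h2 : (p : ℤ) ^ 4 * ∑ x : E, m x ^ 2 = (p : ℤ) ^ 4 * (p : ℤ) ^ 2 := by
      rw [Finset.mul_sum]
      rw [show (p : ℤ) ^ 4 * (p : ℤ) ^ 2 = (p : ℤ) ^ (2 * 3) by ring, ← h1]
      apply Finset.sum_congr rfl
      intro x _
      ring
    exact mul_left_cancel₀ (by positivity) h2
  have s3 : ∑ x : E, m x ^ 3 = V d (1 : E) := by
    have h1 := w_cube (K := E) (d := d) hp hq (by norm_num) hd hd1 1 one_ne_zero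
    simp only [hw, hm1, one_mul] at h1
    have h2 : (p : ℤ) ^ 6 * ∑ x : E, m x ^ 3 = (p : ℤ) ^ 6 * V d (1 : E) := by
      rw [Finset.mul_sum]
      rw [show (p : ℤ) ^ 6 * (V d (1 : E) : ℤ) = (p : ℤ) ^ (2 * 3) * V d (1 : E) by ring, ← h1]
      apply Finset.sum_congr rfl
      intro x _
      ring
    exact mul_left_cancel₀ (by positivity) h2
  have hV : (V d (1 : E) : ℤ) ≤ p := by
    rw [M9c_V_congr hq hd0 he0 hde]
    exact_mod_cast M9c_V hp hq he
  have hnn : ∀ x : E, 0 ≤ m x ^ 3 - m x := by
    intro x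
    have h1 := hm2 x
    have h2 : m x ^ 3 - m x = (m x + 1) * (m x * (m x - 1)) := by ring
    rw [h2]
    apply mul_nonneg (by omega)
    rcases le_or_gt 1 (m x) with h3 | h3
    · apply mul_nonneg <;> omega
    · have h5 : m x ≤ 0 := by omega
      nlinarith
  have hz : ∀ x : E, m x ^ 3 - m x = 0 := by
    have h1 : ∑ x : E, (m x ^ 3 - m x) ≤ 0 := by
      rw [Finset.sum_sub_distrib, s1, s3]
      omega
    have h2 : ∑ x : E, (m x ^ 3 - m x) = 0 :=
      le_antisymm h1 (Finset.sum_nonneg fun x _ => hnn x)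
    intro x
    exact (Finset.sum_eq_zero_iff_of_nonneg (fun x _ => hnn x)).1 h2 x (Finset.mem_univ _)
  have hval : ∀ x : E, m x = -1 ∨ m x = 0 ∨ m x = 1 := by
    intro x
    have h1 := hz x
    have h2 : (m x + 1) * (m x * (m x - 1)) = 0 := by linear_combination h1
    rcases mul_eq_zero.1 h2 with h3 | h3
    · left; omega
    · rcases mul_eq_zero.1 h3 with h5 | h5
      · right; left; exact h5
      · right; right; omega
  have hodd : ∀ x : E, Odd (w p d x) ↔ m x ≠ 0 := by
    intro x
    rw [hw, hm1]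
    have hpz : Odd ((p : ℤ) ^ 2) := by
      apply Odd.pow
      exact_mod_cast hpo
    rw [Int.odd_mul]
    rcases hval x with h | h | h <;> rw [h] <;> simp [hpz]
  have hcard : ((univ.filter fun x : E => Odd (w p d x)).card : ℤ) = (p : ℤ) ^ 2 := by
    rw [← s2, Finset.card_filter]
    push_cast
    apply Finset.sum_congr rfl
    intro x _
    simp only [hodd]
    rcases hval x with h | h | h <;> rw [h] <;> simp
  exact_mod_cast hcard

end

end Pool.Agent.helper75.MS
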